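import Mathlib

/-!
# Definitions: completely regular semigroups, the subpower membership problem, the class NP
-/

namespace Pool.Agent.SMP

open Turing Computability

/-- `S` is completely regular: for every `a` there is `x` with `a = a x a` and `a x = x a`
(equivalently, every element of `S` lies in a subgroup of `S`). -/
def CompletelyRegular (S : Type*) [Semigroup S] : Prop :=
  ∀ a : S, ∃ x : S, a = a * x * a ∧ a * x = x * a

/-- A tuple `t ∈ S^n` written as a word over the alphabet `Option S = S ∪ {#}`: the entries
`t 0, …, t (n-1)` followed by the separator `# = none`. -/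
def encTuple {S : Type} {n : ℕ} (t : Fin n → S) : List (Option S) :=
  (List.ofFn fun j => some (t j)) ++ [none]

/-- The instance `(n; a_1, …, a_k; b)` written as the word `b # a_1 # ⋯ a_k #`, of length
`(k + 1) * (n + 1)`. -/
def encInstance {S : Type} {n k : ℕ} (a : Fin k → Fin n → S) (b : Fin n → S) :
    List (Option S) :=
  encTuple b ++ (List.ofFn fun i => encTuple (a i)).flatten

/-- The subpower membership problem `SMP(S)` of a semigroup `S`, as a language over the alphabet
`Option S`: the words encoding an instance `(n; a_1, …, a_k; b)` such that `b` belongs to the
subsemigroup of the direct power `S^n` generated by `a_1, …, a_k`. -/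
def SubpowerMembership (S : Type) [Semigroup S] : Set (List (Option S)) :=
  {x | ∃ (n k : ℕ) (a : Fin k → Fin n → S) (b : Fin n → S),
    x = encInstance a b ∧ b ∈ Subsemigroup.closure (Set.range a)}

/-- The class NP, for languages over an arbitrary finite alphabet `Γ`: there are a polynomial `p`
and a Boolean verifier `R`, computable in polynomial time by a Turing machine (Mathlib's
`TM2ComputableInPolyTime`, on Mathlib's encoding of pairs of words), such that a word `x` is in `L`
iff some certificate `w ∈ {0,1}^*` of length at most `p(|x|)` satisfies `R (x, w)`. -/
def InNP {Γ : Type} (L : Set (List Γ)) : Prop :=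
  ∃ (p : Polynomial ℕ) (R : List Γ × List Bool → Bool),
    Nonempty (TM2ComputableInPolyTime (encodingProd (encodingList Γ) (encodingList Bool)).encode
      encodeBool R) ∧
    ∀ x : List Γ, x ∈ L ↔ ∃ w : List Bool, w.length ≤ p.eval x.length ∧ R (x, w) = true

end Pool.Agent.SMP
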