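import Mathlib

/-!
# Semigroups satisfying `x * x^(M+1) * x = x`: Green-type preorders, straight-line reachability
-/

namespace Pool.Agent.SMP

universe u v

section Basic

variable {P : Type u} [Semigroup P]

/-- `pw n x = x^(n+1)`. -/
def pw : ℕ → P → P
  | 0, x => x
  | n + 1, x => pw n x * x

@[simp] theorem pw_zero (x : P) : pw 0 x = x := rfl

theorem pw_succ (n : ℕ) (x : P) : pw (n + 1) x = pw n x * x := rfl

theorem pw_succ' (n : ℕ) (x : P) : pw (n + 1) x = x * pw n x := by
  induction n with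
  | zero => rfl
  | succ n ih => rw [pw_succ, ih, mul_assoc, ← pw_succ, ih]

theorem pw_comm (n : ℕ) (x : P) : pw n x * x = x * pw n x := by
  rw [← pw_succ, pw_succ']

theorem pw_add (m n : ℕ) (x : P) : pw (m + n + 1) x = pw m x * pw n x := by
  induction n with
  | zero => rfl
  | succ n ih => rw [← add_assoc, pw_succ, ih, pw_succ, mul_assoc]

/-- The identity `x * x^(M+1) * x = x`. -/
def HasInv (M : ℕ) (P : Type u) [Semigroup P] : Prop := ∀ x : P, x * pw M x * x = x

/-- `x ≤ y` in the `R`-preorder -/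
def RLe (x y : P) : Prop := ∃ t, x = y * t
/-- `x ≤ y` in the `L`-preorder -/
def LLe (x y : P) : Prop := ∃ t, x = t * y
/-- `x ≤ y` in the `J`-preorder -/
def JLe (x y : P) : Prop := ∃ s t, x = s * y * t

variable {M : ℕ}

theorem RLe.refl (h : HasInv M P) (x : P) : RLe x x :=
  ⟨pw M x * x, by rw [← mul_assoc, h x]⟩

theorem LLe.refl (h : HasInv M P) (x : P) : LLe x x :=
  ⟨x * pw M x, (h x).symm⟩

theorem RLe.trans {x y z : P} : RLe x y → RLe y z → RLe x z := by
  rintro ⟨s, rfl⟩ ⟨t, rfl⟩
  exact ⟨t * s, mul_assoc _ _ _⟩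

theorem LLe.trans {x y z : P} : LLe x y → LLe y z → LLe x z := by
  rintro ⟨s, rfl⟩ ⟨t, rfl⟩
  exact ⟨s * t, (mul_assoc _ _ _).symm⟩

theorem JLe.trans {x y z : P} : JLe x y → JLe y z → JLe x z := by
  rintro ⟨s, t, rfl⟩ ⟨s', t', rfl⟩
  exact ⟨s * s', t' * t, by simp only [mul_assoc]⟩

theorem JLe.refl (h : HasInv M P) (x : P) : JLe x x := by
  refine ⟨x * pw M x, pw M x * x, ?_⟩
  rw [h x, ← mul_assoc, h x]

theorem RLe.jle (h : HasInv M P) {x y : P} : RLe x y → JLe x y := by
  rintro ⟨t, rfl⟩
  exact ⟨y * pw M y, t, by rw [h y]⟩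

theorem LLe.jle (h : HasInv M P) {x y : P} : LLe x y → JLe x y := by
  rintro ⟨t, rfl⟩
  refine ⟨t, pw M y * y, ?_⟩
  conv_lhs => rw [← h y]
  simp only [mul_assoc]

theorem jle_mul_left (h : HasInv M P) (x y : P) : JLe (x * y) x := RLe.jle h ⟨y, rfl⟩
theorem jle_mul_right (h : HasInv M P) (x y : P) : JLe (x * y) y := LLe.jle h ⟨x, rfl⟩

theorem jle_mul (h : HasInv M P) {x y z : P} (hx : JLe z x) (hy : JLe z y) : JLe z (x * y) := by
  obtain ⟨p, q, hx⟩ := hx
  obtain ⟨r, s, hy⟩ := hy
  -- z = p x q = r y s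
  -- a := y s p x ; z * z = r a q
  obtain ⟨a, ha⟩ : ∃ a, a = y * s * p * x := ⟨_, rfl⟩
  have haa : a = a * a * pw M a := by
    conv_lhs => rw [← h a]
    rw [mul_assoc, mul_assoc, pw_comm]
  have hzz : z * z = r * a * q := by
    conv_lhs => rw [hx]
    conv_lhs => enter [1]; rw [← hx, hy]
    rw [ha]; simp only [mul_assoc]
  have hz : z = z * z * pw M z := by
    conv_lhs => rw [← h z]
    rw [mul_assoc, mul_assoc, pw_comm]
  refine ⟨r * y * s * p, s * p * x * pw M a * q * pw M z, ?_⟩
  calc z = z * z * pw M z := hz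
    _ = r * a * q * pw M z := by rw [hzz]
    _ = r * (a * a * pw M a) * q * pw M z := by rw [← haa]
    _ = r * ((y * s * p * x) * a * pw M a) * q * pw M z := by rw [← ha]
    _ = r * ((y * s * p * x) * (y * s * p * x) * pw M a) * q * pw M z := by
        conv_lhs => enter [1, 1, 2, 1, 2]; rw [ha]
    _ = _ := by simp only [mul_assoc]

/-- stability, right version -/
theorem rle_mul_of_jle (h : HasInv M P) {x y : P} (hx : JLe x (x * y)) : RLe x (x * y) := by
  obtain ⟨a, q, hx⟩ := hx
  -- x = a * (x*y) * q ; c = y*q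
  have hc : x = a * x * (y * q) := by
    conv_lhs => rw [hx]
    simp only [mul_assoc]
  set c := y * q with hcdef
  have h1 : x * (c * pw M c) = x := by
    have hcc : c * (c * pw M c) = c := by rw [← pw_comm M c, ← mul_assoc, h c]
    calc x * (c * pw M c) = a * x * c * (c * pw M c) := by rw [← hc]
      _ = a * x * (c * (c * pw M c)) := by rw [mul_assoc]
      _ = a * x * c := by rw [hcc]
      _ = x := hc.symm
  refine ⟨q * pw M c, ?_⟩
  calc x = x * (c * pw M c) := h1.symm
    _ = x * ((y * q) * pw M c) := by rw [← hcdef]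
    _ = _ := by simp only [mul_assoc]

/-- stability, left version -/
theorem lle_mul_of_jle (h : HasInv M P) {x y : P} (hx : JLe x (y * x)) : LLe x (y * x) := by
  obtain ⟨q, a, hx⟩ := hx
  have hc : x = (q * y) * x * a := by
    conv_lhs => rw [hx]
    simp only [mul_assoc]
  set c := q * y with hcdef
  have h1 : (pw M c * c) * x = x := by
    have hcc : (pw M c * c) * c = c := by rw [pw_comm M c, h c]
    calc (pw M c * c) * x = (pw M c * c) * (c * x * a) := by rw [← hc]
      _ = ((pw M c * c) * c) * x * a := by simp only [mul_assoc]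
      _ = c * x * a := by rw [hcc]
      _ = x := hc.symm
  refine ⟨pw M c * q, ?_⟩
  calc x = (pw M c * c) * x := h1.symm
    _ = (pw M c * (q * y)) * x := by rw [← hcdef]
    _ = _ := by simp only [mul_assoc]

theorem rle_mul (h : HasInv M P) {x y : P} (hxy : JLe x y) : RLe x (x * y) :=
  rle_mul_of_jle h (jle_mul h (JLe.refl h x) hxy)

theorem lle_mul (h : HasInv M P) {x y : P} (hxy : JLe x y) : LLe x (y * x) :=
  lle_mul_of_jle h (jle_mul h hxy (JLe.refl h x))

/-- the idempotent attached to `x`. -/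
def idem (M : ℕ) (x : P) : P := x * pw M x

theorem idem_mul (h : HasInv M P) (x : P) : idem M x * x = x := h x

theorem mul_idem (h : HasInv M P) (x : P) : x * idem M x = x := by
  unfold idem
  rw [← pw_comm, ← mul_assoc, h x]

theorem idem_idem (h : HasInv M P) (x : P) : idem M x * idem M x = idem M x := by
  unfold idem
  rw [← mul_assoc, h x]

theorem pw_mul_idem (h : HasInv M P) (x : P) : pw M x * idem M x = pw M x := by
  cases M with
  | zero => exact mul_idem h x
  | succ m =>
    rw [pw_succ, mul_assoc, mul_idem h]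

theorem idem_mul_pw (h : HasInv M P) (x : P) : idem M x * pw M x = pw M x := by
  cases M with
  | zero => exact idem_mul h x
  | succ m =>
    conv_lhs => rw [pw_succ']
    rw [← mul_assoc, idem_mul h, ← pw_succ']

/-- if `e * a = a` and `e ≤_L a` then `idem a = e`. -/
theorem idem_eq_of_left (h : HasInv M P) {e a : P} (h1 : e * a = a) (h2 : LLe e a) :
    idem M a = e := by
  obtain ⟨s, hs⟩ := h2
  calc idem M a = a * pw M a := rfl
    _ = e * a * pw M a := by rw [h1]
    _ = e * idem M a := by rw [mul_assoc]; rfl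
    _ = s * a * idem M a := by rw [← hs]
    _ = s * (a * idem M a) := mul_assoc _ _ _
    _ = e := by rw [mul_idem h, ← hs]

end Basic

/-! ### Straight-line programs -/

section Ext

variable {P : Type u} [Semigroup P]

/-- `Ext m X Y`: the set `Y` of available elements is obtained from `X` by exactly `m`
multiplications. -/
inductive Ext : ℕ → Set P → Set P → Prop
  | refl (X : Set P) : Ext 0 X X
  | step {m : ℕ} {X Y : Set P} {x y : P} : Ext m X Y → x ∈ Y → y ∈ Y →
      Ext (m + 1) X (insert (x * y) Y)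

theorem Ext.subset {m : ℕ} {X Y : Set P} (h : Ext m X Y) : X ⊆ Y := by
  induction h with
  | refl X => exact subset_rfl
  | step _ _ _ ih => exact ih.trans (Set.subset_insert _ _)

theorem Ext.trans {m k : ℕ} {X Y Z : Set P} (h : Ext m X Y) (h' : Ext k Y Z) :
    Ext (m + k) X Z := by
  induction h' with
  | refl Y => exact h
  | step _ hx hy ih => exact Ext.step (ih h) hx hy

theorem Ext.frame {m : ℕ} {X Y : Set P} (h : Ext m X Y) (W : Set P) :
    Ext m (X ∪ W) (Y ∪ W) := by
  induction h with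
  | refl Y => exact Ext.refl _
  | step _ hx hy ih =>
    rw [Set.insert_union]
    exact Ext.step ih (Or.inl hx) (Or.inl hy)

/-- All elements of `F` can be produced from `X` by a straight-line program with at most `m`
multiplications. -/
def Reach (m : ℕ) (X F : Set P) : Prop :=
  ∃ k, k ≤ m ∧ ∃ Y, Ext k X Y ∧ F ⊆ Y

theorem Reach.refl (X : Set P) : Reach 0 X X := ⟨0, le_rfl, X, Ext.refl X, subset_rfl⟩

theorem Reach.of_subset {X F : Set P} (h : F ⊆ X) (m : ℕ) : Reach m X F :=
  ⟨0, Nat.zero_le _, X, Ext.refl X, h⟩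

theorem Reach.mono {m m' : ℕ} {X X' F F' : Set P} (h : Reach m X F) (hm : m ≤ m') (hX : X ⊆ X')
    (hF : F' ⊆ F) : Reach m' X' F' := by
  obtain ⟨k, hk, Y, hY, hFY⟩ := h
  refine ⟨k, hk.trans hm, Y ∪ X', ?_, (hF.trans hFY).trans Set.subset_union_left⟩
  have := hY.frame X'
  rwa [Set.union_eq_self_of_subset_left hX] at this

theorem Reach.trans {m k : ℕ} {X F F' : Set P} (h : Reach m X F) (h' : Reach k (X ∪ F) F') :
    Reach (m + k) X (F ∪ F') := by
  obtain ⟨a, ha, Y, hY, hFY⟩ := h
  obtain ⟨b, hb, Z, hZ, hFZ⟩ := h'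
  have h1 := hZ.frame Y
  have h2 : X ∪ F ∪ Y = Y := by
    apply Set.union_eq_self_of_subset_left
    exact Set.union_subset hY.subset hFY
  rw [h2] at h1
  exact ⟨a + b, Nat.add_le_add ha hb, Z ∪ Y, hY.trans h1,
    Set.union_subset (hFY.trans Set.subset_union_right) (hFZ.trans Set.subset_union_left)⟩

theorem Reach.mul {X : Set P} {x y : P} (hx : x ∈ X) (hy : y ∈ X) : Reach 1 X {x * y} :=
  ⟨1, le_rfl, insert (x * y) X, Ext.step (Ext.refl X) hx hy, by simp⟩

/-- compute `x`, then `y`, then the product. -/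
theorem Reach.mul' {m k : ℕ} {X : Set P} {x y : P} (hx : Reach m X {x})
    (hy : Reach k X {y}) : Reach (m + k + 1) X {x * y} := by
  have h1 := hx.trans (hy.mono le_rfl (X' := X ∪ {x}) Set.subset_union_left subset_rfl)
  have h2 := h1.trans (Reach.mul (x := x) (y := y) (by simp) (by simp))
  exact h2.mono le_rfl subset_rfl (by simp)

theorem Reach.pw {X : Set P} {x : P} (hx : x ∈ X) (n : ℕ) : Reach n X {pw n x} := by
  induction n with
  | zero => exact Reach.of_subset (by simpa using hx) _
  | succ n ih =>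
    have h2 := ih.trans (Reach.mul (X := X ∪ {SMP.pw n x}) (x := SMP.pw n x) (y := x)
      (by simp) (by simp [hx]))
    exact h2.mono le_rfl subset_rfl (by simp [pw_succ])

theorem Reach.pw' {m : ℕ} {X : Set P} {x : P} (hx : Reach m X {x}) (n : ℕ) :
    Reach (m + n) X {SMP.pw n x} := by
  have h2 := hx.trans (Reach.pw (X := X ∪ {x}) (x := x) (by simp) n)
  exact h2.mono le_rfl subset_rfl (by simp)

end Ext

/-! ### Generation from the right -/

section Gen

variable {P : Type u} [Semigroup P]

/-- `Gen A b`: `b` is a nonempty product of elements of `A`. -/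
inductive Gen (A : Set P) : P → Prop
  | base {a : P} : a ∈ A → Gen A a
  | snoc {w a : P} : Gen A w → a ∈ A → Gen A (w * a)

theorem Gen.mul {A : Set P} {x y : P} (hx : Gen A x) (hy : Gen A y) : Gen A (x * y) := by
  induction hy with
  | base ha => exact Gen.snoc hx ha
  | snoc _ ha ih => rw [← mul_assoc]; exact Gen.snoc ih ha

theorem gen_iff_closure {A : Set P} {b : P} : Gen A b ↔ b ∈ Subsemigroup.closure A := by
  constructor
  · intro h
    induction h with
    | base ha => exact Subsemigroup.subset_closure ha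
    | snoc _ ha ih => exact mul_mem ih (Subsemigroup.subset_closure ha)
  · intro h
    induction h using Subsemigroup.closure_induction with
    | mem x hx => exact Gen.base hx
    | mul x y _ _ hx hy => exact Gen.mul hx hy

theorem Gen.mono {A B : Set P} (hAB : A ⊆ B) {b : P} (h : Gen A b) : Gen B b := by
  induction h with
  | base ha => exact Gen.base (hAB ha)
  | snoc _ ha ih => exact Gen.snoc ih (hAB ha)

theorem Gen.pw {A : Set P} {x : P} (hx : Gen A x) (n : ℕ) : Gen A (pw n x) := by
  induction n with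
  | zero => exact hx
  | succ n ih => exact ih.mul hx

variable {M : ℕ}

/-- each element is generated by the generators `J`-above it. -/
theorem Gen.above (h : HasInv M P) {A : Set P} {b : P} (hb : Gen A b) :
    Gen {a ∈ A | JLe b a} b := by
  induction hb with
  | base ha => exact Gen.base ⟨ha, JLe.refl h _⟩
  | @snoc w a hw ha ih =>
    refine Gen.snoc (ih.mono ?_) ⟨ha, jle_mul_right h _ _⟩
    rintro c ⟨hc, hwc⟩
    exact ⟨hc, (jle_mul_left h w a).trans hwc⟩

/-- elements `J`-below all generators are `J`-below all generated elements. -/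
theorem Gen.jle (h : HasInv M P) {A : Set P} {z b : P} (hz : ∀ a ∈ A, JLe z a) (hb : Gen A b) :
    JLe z b := by
  induction hb with
  | base ha => exact hz _ ha
  | snoc _ ha ih => exact jle_mul h ih (hz _ ha)

/-- prefix lemma -/
theorem Gen.prefix_lemma (h : HasInv M P) {A : Set P} (Q : P → Prop) {b : P} (hb : Gen A b)
    (hQ : Q b) :
    (∃ a ∈ A, Q a ∧ RLe b a) ∨ ∃ w a, Gen A w ∧ a ∈ A ∧ ¬ Q w ∧ Q (w * a) ∧ RLe b (w * a) := by
  induction hb with
  | base ha => exact Or.inl ⟨_, ha, hQ, RLe.refl h _⟩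
  | @snoc w a hw ha ih =>
    by_cases hQw : Q w
    · rcases ih hQw with ⟨c, hc, hQc, hwc⟩ | ⟨w', c, hw', hc, hn, hQc, hwc⟩
      · exact Or.inl ⟨c, hc, hQc, RLe.trans ⟨a, rfl⟩ hwc⟩
      · exact Or.inr ⟨w', c, hw', hc, hn, hQc, RLe.trans ⟨a, rfl⟩ hwc⟩
    · exact Or.inr ⟨w, a, hw, ha, hQw, hQ, RLe.refl h _⟩

end Gen

end Pool.Agent.SMP
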