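import Pool.Agent.SMP.Run

/-!
# Checking that an input word is a well-formed instance
-/

set_option backward.isDefEq.respectTransparency false
set_option linter.unusedSectionVars false

namespace Pool.Agent.SMP

open RTM

/-- control states of the format checker -/
inductive CM
  | first
  | side (i : Bool) (start : Bool)
  | bad
  deriving DecidableEq, Fintype

variable {S : Type}

/-- transition function of the format checker -/
def tr2 (m : CM) (a : Option S ⊕ Bool × Bool) (t : Bool → Option (Option S)) :
    CM × (Bool → Act (Option S)) :=
  match m, a with
  | m, .inr _ => (m, fun _ => .keep)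
  | .first, .inl (some _) => (.first, fun i => if i then .keep else .push none)
  | .first, .inl none => (.side false true, fun _ => .keep)
  | .side i _, .inl (some _) =>
    match t i with
    | some _ => (.side i false, fun j => if j = i then .pop else .push none)
    | none => (.bad, fun _ => .keep)
  | .side i _, .inl none =>
    match t i with
    | some _ => (.bad, fun _ => .keep)
    | none => (.side (!i) true, fun _ => .keep)
  | .bad, _ => (.bad, fun _ => .keep)

/-- the format checker -/
def chkMach (S : Type) : Mach (Option S ⊕ Bool × Bool) (Option S) where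
  K := Bool
  Q := CM
  q0 := .first
  δ := tr2
  acc m := match m with
    | .side _ true => true
    | _ => false

theorem chk_inr (w : List (Bool × Bool)) : ∀ c : (chkMach S).Conf,
    (chkMach S).runFrom c (w.map Sum.inr) = c := by
  induction w with
  | nil => intro c; rfl
  | cons i w ih =>
    intro c
    rw [List.map_cons, Mach.runFrom_cons]
    have : (chkMach S).step c (Sum.inr i) = c := by
      obtain ⟨m, σ⟩ := c
      cases m <;> rfl
    rw [this, ih]

/-- meaning of the control states -/
def CInv (x : List (Option S)) (c : (chkMach S).Conf) : Prop :=
  match c.1 with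
  | .first => ∃ b : List S, x = b.map some ∧ (c.2 false).length = b.length
  | .side i s => ∃ (b : List S) (A : List (List S)) (u : List S),
      x = bl b ++ st A ++ u.map some ∧ (∀ a ∈ A, a.length = b.length) ∧
      (c.2 i).length + u.length = b.length ∧ (c.2 (!i)).length = u.length ∧ (s = true → u = [])
  | .bad => True

/-- well-formed words -/
def WF (x : List (Option S)) : Prop :=
  ∃ (b : List S) (A : List (List S)), x = bl b ++ st A ∧ ∀ a ∈ A, a.length = b.length

theorem first_true (x : List (Option S)) : ∀ c : (chkMach S).Conf,
    (c.1 = .first → c.2 true = []) →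
    (((chkMach S).runFrom c (x.map Sum.inl)).1 = .first →
      ((chkMach S).runFrom c (x.map Sum.inl)).2 true = []) := by
  induction x with
  | nil => intro c h; exact h
  | cons a x ih =>
    intro c h
    rw [List.map_cons, Mach.runFrom_cons]
    apply ih
    obtain ⟨m, σ⟩ := c
    cases m with
    | first =>
      cases a with
      | none => intro h'; cases h'
      | some s => intro _; exact h rfl
    | bad => intro h'; cases a <;> cases h'
    | side i s =>
      intro h'
      exfalso
      cases a with
      | none =>
        simp only [Mach.step, chkMach, tr2] at h'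
        split at h' <;> cases h'
      | some t =>
        simp only [Mach.step, chkMach, tr2] at h'
        split at h' <;> cases h'

theorem cinv_step (x : List (Option S)) (c : (chkMach S).Conf) (a : Option S)
    (h0 : c.1 = .first → c.2 true = [])
    (h : CInv x c) : CInv (x ++ [a]) ((chkMach S).step c (Sum.inl a)) := by
  obtain ⟨m, σ⟩ := c
  cases m with
  | bad => cases a <;> trivial
  | first =>
    obtain ⟨b, rfl, hlen⟩ := h
    simp only at hlen
    cases a with
    | none =>
      refine ⟨b, [], [], by simp [bl], by simp, ?_, ?_, fun _ => rfl⟩
      · simpa [Mach.step, chkMach, tr2] using hlen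
      · have := h0 rfl
        simp only at this
        simp [Mach.step, chkMach, tr2, this]
    | some s =>
      refine ⟨b ++ [s], by simp, ?_⟩
      simp [Mach.step, chkMach, tr2, hlen]
  | side i s =>
    obtain ⟨b, A, u, rfl, hA, h1, h2, h3⟩ := h
    simp only at h1 h2
    cases a with
    | none =>
      cases hσ : σ i with
      | nil =>
        rw [hσ] at h1
        have hstep : (chkMach S).step (.side i s, σ) (Sum.inl none) = (.side (!i) true, σ) := by
          simp [Mach.step, chkMach, tr2, hσ]
        rw [hstep]
        refine ⟨b, A ++ [u], [], ?_, ?_, ?_, ?_, fun _ => rfl⟩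
        · rw [st_snoc]; simp
        · intro a ha
          rw [List.mem_append, List.mem_singleton] at ha
          rcases ha with ha | rfl
          · exact hA a ha
          · simpa using h1
        · simp only [h2]
          simpa using h1
        · simp only [Bool.not_not]
          rw [hσ]
          rfl
      | cons y l =>
        have hstep : (chkMach S).step (.side i s, σ) (Sum.inl none) = (.bad, σ) := by
          simp [Mach.step, chkMach, tr2, hσ]
        rw [hstep]
        trivial
    | some t =>
      cases hσ : σ i with
      | nil =>
        have hstep : (chkMach S).step (.side i s, σ) (Sum.inl (some t)) = (.bad, σ) := by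
          simp [Mach.step, chkMach, tr2, hσ]
        rw [hstep]
        trivial
      | cons y l =>
        rw [hσ] at h1
        have hq : ((chkMach S).step (.side i s, σ) (Sum.inl (some t))).1 = .side i false := by
          simp [Mach.step, chkMach, tr2, hσ]
        have hs1 : ((chkMach S).step (.side i s, σ) (Sum.inl (some t))).2 i = l := by
          simp [Mach.step, chkMach, tr2, hσ]
        have hs2 : ((chkMach S).step (.side i s, σ) (Sum.inl (some t))).2 (!i) =
            none :: σ (!i) := by
          simp [Mach.step, chkMach, tr2, hσ]
        unfold CInv
        rw [hq]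
        refine ⟨b, A, u ++ [t], by simp, hA, ?_, ?_, by simp⟩
        · rw [hs1]
          simp only [List.length_cons, List.length_append, List.length_nil] at h1 ⊢
          omega
        · rw [hs2]
          simp [h2]

theorem cinv_run (x : List (Option S)) :
    CInv x ((chkMach S).runFrom (chkMach S).init (x.map Sum.inl)) := by
  induction x using List.reverseRecOn with
  | nil => exact ⟨[], rfl, rfl⟩
  | append_singleton x a ih =>
    rw [List.map_append, Mach.runFrom_append]
    exact cinv_step x _ a (first_true x (chkMach S).init (fun _ => rfl)) ih

theorem chk_sound (x : List (Option S)) (w : List (Bool × Bool))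
    (h : (chkMach S).accepts (x.map Sum.inl ++ w.map Sum.inr) = true) : WF x := by
  unfold Mach.accepts at h
  rw [Mach.runFrom_append, chk_inr] at h
  have hinv := cinv_run x
  set c := (chkMach S).runFrom (chkMach S).init (x.map Sum.inl) with hc
  obtain ⟨m, σ⟩ := c
  cases m with
  | first => cases h
  | bad => cases h
  | side i s =>
    cases s with
    | false => cases h
    | true =>
      obtain ⟨b, A, u, hx, hA, h1, h2, h3⟩ := hinv
      have hu := h3 rfl
      subst hu
      exact ⟨b, A, by simpa using hx, hA⟩

theorem chk_first (b : List S) : ∀ σ : Bool → List (Option S), ∃ σ' : Bool → List (Option S),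
    (chkMach S).runFrom (.first, σ) ((b.map some).map Sum.inl) = (.first, σ') ∧
    (σ' false).length = (σ false).length + b.length ∧ σ' true = σ true := by
  induction b with
  | nil => intro σ; exact ⟨σ, rfl, rfl, rfl⟩
  | cons s b ih =>
    intro σ
    obtain ⟨σ', h1, h2, h3⟩ := ih (((chkMach S).step (.first, σ) (Sum.inl (some s))).2)
    refine ⟨σ', ?_, ?_, ?_⟩
    · rw [List.map_cons, List.map_cons, Mach.runFrom_cons]
      exact h1
    · rw [h2]
      simp only [Mach.step, chkMach, tr2, List.length_cons]
      simp
      omega
    · rw [h3]
      simp [Mach.step, chkMach, tr2]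

theorem chk_side (a : List S) : ∀ (i s : Bool) (σ : Bool → List (Option S)),
    (σ i).length = a.length → ∃ (σ' : Bool → List (Option S)) (s' : Bool),
    (chkMach S).runFrom (.side i s, σ) ((a.map some).map Sum.inl) = (.side i s', σ') ∧
    σ' i = [] ∧ (σ' (!i)).length = (σ (!i)).length + a.length := by
  induction a with
  | nil =>
    intro i s σ h
    exact ⟨σ, s, rfl, List.length_eq_zero_iff.1 h, rfl⟩
  | cons t a ih =>
    intro i s σ h
    cases hσ : σ i with
    | nil => rw [hσ] at h; simp at h
    | cons y l =>
      have hq : ((chkMach S).step (.side i s, σ) (Sum.inl (some t))).1 = .side i false := by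
        simp [Mach.step, chkMach, tr2, hσ]
      have hs1 : ((chkMach S).step (.side i s, σ) (Sum.inl (some t))).2 i = l := by
        simp [Mach.step, chkMach, tr2, hσ]
      have hs2 : ((chkMach S).step (.side i s, σ) (Sum.inl (some t))).2 (!i) =
          none :: σ (!i) := by
        simp [Mach.step, chkMach, tr2, hσ]
      obtain ⟨σ', s', h1, h2, h3⟩ := ih i false
        (((chkMach S).step (.side i s, σ) (Sum.inl (some t))).2) (by
          rw [hs1]
          rw [hσ] at h
          simpa using h)
      refine ⟨σ', s', ?_, h2, ?_⟩
      · rw [List.map_cons, List.map_cons, Mach.runFrom_cons]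
        have : (chkMach S).step (.side i s, σ) (Sum.inl (some t)) =
          (.side i false, ((chkMach S).step (.side i s, σ) (Sum.inl (some t))).2) :=
          Prod.ext hq rfl
        rw [this]
        exact h1
      · rw [h3, hs2]
        simp only [List.length_cons]
        omega

theorem chk_blocks (A : List (List S)) : ∀ (i : Bool) (σ : Bool → List (Option S)),
    (∀ a ∈ A, (σ i).length = a.length) → σ (!i) = [] →
    ∃ (i' : Bool) (σ' : Bool → List (Option S)),
    (chkMach S).runFrom (.side i true, σ) ((st A).map Sum.inl) = (.side i' true, σ') := by
  induction A with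
  | nil => intro i σ _ _; exact ⟨i, σ, rfl⟩
  | cons a A ih =>
    intro i σ h1 h2
    obtain ⟨σ', s', hr, hi, hni⟩ := chk_side a i true σ (h1 a List.mem_cons_self)
    have hstep : (chkMach S).step (.side i s', σ') (Sum.inl none) = (.side (!i) true, σ') := by
      simp [Mach.step, chkMach, tr2, hi]
    obtain ⟨i'', σ'', h''⟩ := ih (!i) σ' (by
      intro c hc
      rw [hni, h2, List.length_nil, zero_add, ← h1 a List.mem_cons_self]
      exact h1 c (List.mem_cons_of_mem _ hc)) (by rw [Bool.not_not]; exact hi)
    refine ⟨i'', σ'', ?_⟩
    rw [st_cons, List.map_append, Mach.runFrom_append, hr, List.map_cons, Mach.runFrom_cons,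
      hstep, h'']

theorem chk_complete (x : List (Option S)) (w : List (Bool × Bool)) (h : WF x) :
    (chkMach S).accepts (x.map Sum.inl ++ w.map Sum.inr) = true := by
  obtain ⟨b, A, rfl, hA⟩ := h
  unfold Mach.accepts
  rw [Mach.runFrom_append, chk_inr]
  obtain ⟨σ, h1, h2, h3⟩ := chk_first b (fun _ => ([] : List (Option S)))
  have h0 : (chkMach S).runFrom (chkMach S).init ((bl b).map Sum.inl) = (.side false true, σ) := by
    rw [bl, List.map_append, Mach.runFrom_append]
    have h1' : (chkMach S).runFrom (chkMach S).init ((b.map some).map Sum.inl) = (.first, σ) := h1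
    rw [h1']
    rfl
  obtain ⟨i', σ', h'⟩ := chk_blocks A false σ (by
    intro a ha
    rw [h2, hA a ha]
    simp) h3
  rw [List.map_append, Mach.runFrom_append, h0, h']
  rfl

end Pool.Agent.SMP
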