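import Pool.Agent.SMP.Check

/-!
# SMP of a finite completely regular semigroup is in NP
-/

set_option backward.isDefEq.respectTransparency false
set_option linter.unusedSectionVars false

namespace Pool.Agent.SMP

open RTM

variable {S : Type} [Semigroup S]

theorem encTuple_eq {n : ℕ} (t : Fin n → S) : encTuple t = bl (List.ofFn t) := by
  unfold encTuple bl
  rw [List.map_ofFn]
  rfl

theorem encInstance_eq {n k : ℕ} (a : Fin k → Fin n → S) (b : Fin n → S) :
    encInstance a b = bl (List.ofFn b) ++ st (List.ofFn fun i => List.ofFn (a i)) := by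
  unfold encInstance st
  rw [encTuple_eq, List.map_ofFn]
  congr 2
  apply congrArg
  funext i
  exact encTuple_eq (a i)

theorem inv_run {T : List S → Prop}
    (hT : ∀ x y, T x → T y → x.length = y.length → T (List.zipWith (· * ·) x y))
    (b : List S) (w : List (Bool × Bool)) : ∀ c : (slpMach S).Conf, Inv T b c →
    Inv T b ((slpMach S).runFrom c (w.map Sum.inr)) := by
  induction w with
  | nil => intro c h; exact h
  | cons i w ih =>
    intro c h
    rw [List.map_cons, Mach.runFrom_cons]
    apply ih
    rw [eq_cf c] at h ⊢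
    exact inv_step hT b _ _ _ _ _ _ i h

/-- soundness -/
theorem smp_sound (x : List (Option S)) (w : List (Bool × Bool))
    (h : ((slpMach S).prod (chkMach S)).accepts (x.map Sum.inl ++ w.map Sum.inr) = true) :
    x ∈ SubpowerMembership S := by
  rw [Mach.prod_accepts, Bool.and_eq_true] at h
  obtain ⟨h1, h2⟩ := h
  obtain ⟨b, A, rfl, hA⟩ := chk_sound x w h2
  set b' : Fin b.length → S := fun j => b[j] with hb'
  set a' : Fin A.length → Fin b.length → S := fun i j =>
    (A[i.1])[j.1]'(by rw [hA _ (List.getElem_mem _)]; exact j.2) with ha'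
  have hofb : List.ofFn b' = b := by
    apply List.ext_getElem
    · simp
    · intro i h1 h2; simp [hb']
  have hofa : ∀ i, List.ofFn (a' i) = A[i] := by
    intro i
    apply List.ext_getElem
    · simp only [List.length_ofFn]
      exact (hA _ (List.getElem_mem _)).symm
    · intro j h1 h2; simp [ha']
  have hofA : (List.ofFn fun i => List.ofFn (a' i)) = A := by
    apply List.ext_getElem
    · simp
    · intro i h1 h2
      simp [hofa]
  refine ⟨b.length, A.length, a', b', ?_, ?_⟩
  · rw [encInstance_eq, hofb, hofA]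
  · set T : List S → Prop := fun l => ∃ t : Fin b.length → S,
      t ∈ Subsemigroup.closure (Set.range a') ∧ List.ofFn t = l with hTdef
    have hT : ∀ x y, T x → T y → x.length = y.length → T (List.zipWith (· * ·) x y) := by
      rintro _ _ ⟨t, ht, rfl⟩ ⟨t', ht', rfl⟩ -
      exact ⟨t * t', mul_mem ht ht', ofFn_mul' t t'⟩
    have hinit : Inv T b (cf .pos1 (none :: st A).reverse [] [] [] (b.map some).reverse) := by
      refine ⟨⟨A, ?_, ?_⟩, rfl, rfl, rfl⟩
      · intro l hl
        obtain ⟨i, hi, rfl⟩ := List.getElem_of_mem hl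
        exact ⟨a' ⟨i, hi⟩, Subsemigroup.subset_closure ⟨_, rfl⟩, hofa ⟨i, hi⟩⟩
      · simp [cf]
    unfold Mach.accepts at h1
    rw [Mach.runFrom_append, read_inst] at h1
    have hfin := inv_run hT b w _ hinit
    set c := (slpMach S).runFrom
      (cf .pos1 (none :: st A).reverse [] [] [] (b.map some).reverse) (w.map Sum.inr) with hc
    have hacc : c.1 = .acc := by
      simpa [slpMach] using h1
    unfold Inv at hfin
    rw [hacc] at hfin
    obtain ⟨t, ht, htb⟩ := hfin
    have : t = b' := by
      apply List.ofFn_injective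
      rw [htb, hofb]
    rwa [this] at ht

/-- the polynomial bounding the certificate length -/
noncomputable def certPoly (C : ℕ) : Polynomial ℕ :=
  let m : Polynomial ℕ := (C : Polynomial ℕ) * (2 * Polynomial.X + 1) ^ C
  m * (7 * ((Polynomial.X + m) * (Polynomial.X + 1)) + 20) +
    (3 * ((Polynomial.X + m) * (Polynomial.X + 1)) + 5)

theorem smp_complete {C : ℕ} (hC : ∀ n k : ℕ, ∀ A : Finset (Fin n → S), A.card ≤ k → ∀ b,
    Gen (↑A : Set (Fin n → S)) b → Reach (C * (n + k + 1) ^ C) (↑A) {b})
    (x : List (Option S)) (hx : x ∈ SubpowerMembership S) :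
    ∃ w : List (Bool × Bool), w.length ≤ (certPoly C).eval x.length ∧
      ((slpMach S).prod (chkMach S)).accepts (x.map Sum.inl ++ w.map Sum.inr) = true := by
  classical
  obtain ⟨n, k, a, b, rfl, hb⟩ := hx
  have hgen : Gen (↑(Finset.univ.image a) : Set (Fin n → S)) b := by
    rw [gen_iff_closure]
    simpa using hb
  obtain ⟨m, hm, Y, hY, hbY⟩ := hC n k (Finset.univ.image a)
    (Finset.card_image_le.trans (by simp)) b hgen
  rw [encInstance_eq]
  set b' := List.ofFn b with hb'
  set X₀ := List.ofFn fun i => List.ofFn (a i) with hX₀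
  obtain ⟨X, hXk, hXn, hXY, hgo⟩ := go_slp (k := k) (n := n) hY X₀ (by simp [hX₀]) (by
      intro l hl
      rw [hX₀, List.mem_ofFn] at hl
      obtain ⟨i, rfl⟩ := hl
      simp) (by
      intro c hc
      simp only [Finset.coe_image, Finset.coe_univ, Set.image_univ, Set.mem_range] at hc
      obtain ⟨i, rfl⟩ := hc
      rw [hX₀, List.mem_ofFn]
      exact ⟨i, rfl⟩) (b'.map some).reverse
  obtain ⟨P, Q, hacc⟩ := go_accept (hXY b (hbY rfl))
  obtain ⟨w, hw, hrun⟩ := hgo.trans hacc
  refine ⟨w, hw.trans ?_, ?_⟩
  · -- length bound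
    have hlen : (bl b' ++ st X₀).length = (n + 1) + k * (n + 1) := by
      rw [List.length_append, length_st (n := n) (by
        intro l hl
        rw [hX₀, List.mem_ofFn] at hl
        obtain ⟨i, rfl⟩ := hl
        simp)]
      simp [bl, hb', hX₀]
    set L := (bl b' ++ st X₀).length with hL
    have hnL : n + 1 ≤ L := by rw [hlen]; exact Nat.le_add_right _ _
    have hkL : k ≤ L := by rw [hlen]; nlinarith
    rw [length_st hXn, hXk]
    have hmM : m ≤ C * (2 * L + 1) ^ C := by
      refine hm.trans (Nat.mul_le_mul_left _ (Nat.pow_le_pow_left (by omega) _))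
    have hev : (certPoly C).eval L = (C * (2 * L + 1) ^ C) *
        (7 * ((L + C * (2 * L + 1) ^ C) * (L + 1)) + 20) +
        (3 * ((L + C * (2 * L + 1) ^ C) * (L + 1)) + 5) := by
      simp [certPoly]
    rw [hev]
    set M := C * (2 * L + 1) ^ C with hM
    have h1 : (k + m) * (n + 1) ≤ (L + M) * (L + 1) :=
      Nat.mul_le_mul (by omega) (by omega)
    have h2 : m * (7 * ((k + m) * (n + 1)) + 20) ≤ M * (7 * ((L + M) * (L + 1)) + 20) :=
      Nat.mul_le_mul hmM (by omega)
    omega
  · rw [Mach.prod_accepts, Bool.and_eq_true]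
    constructor
    · unfold Mach.accepts
      rw [Mach.runFrom_append, read_inst, hrun]
      simp [slpMach, cf]
    · apply chk_complete
      refine ⟨b', X₀, rfl, ?_⟩
      intro l hl
      rw [hX₀, List.mem_ofFn] at hl
      obtain ⟨i, rfl⟩ := hl
      simp [hb']

/-- **Main theorem.** -/
theorem smp_inNP (S : Type) [Semigroup S] [Finite S] (hS : CompletelyRegular S) :
    InNP (SubpowerMembership S) := by
  classical
  have := Fintype.ofFinite S
  obtain ⟨C, hC⟩ := good_of_completelyRegular hS
  have : Inhabited (Option S) := ⟨none⟩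
  exact inNP_of_mach (SubpowerMembership S) ((slpMach S).prod (chkMach S)) (certPoly C)
    (fun x c hacc => smp_sound x c hacc)
    (fun x hx => smp_complete hC x hx)

end Pool.Agent.SMP
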