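import Pool.Agent.SMP.Reach
import Pool.Agent.SMP.Defs

/-!
# Polynomial straight-line programs in powers of a finite completely regular semigroup
-/

namespace Pool.Agent.SMP

universe u v

/-! ### transport of straight-line programs -/

section Transport

variable {P : Type u} {Q : Type v} [Semigroup P] [Semigroup Q]

theorem Ext.lift {f : P → Q} (hf : ∀ x y, f (x * y) = f x * f y) {k : ℕ} {X : Set P} {Y' : Set Q}
    (h : Ext k (f '' X) Y') : ∃ Y, Ext k X Y ∧ Y' = f '' Y := by
  generalize hX : f '' X = X' at h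
  induction h with
  | refl X' => exact ⟨X, Ext.refl X, hX.symm⟩
  | @step m X' Y' x' y' h hx hy ih =>
    obtain ⟨Y, hY, rfl⟩ := ih hX
    obtain ⟨x, hx, rfl⟩ := hx
    obtain ⟨y, hy, rfl⟩ := hy
    refine ⟨insert (x * y) Y, Ext.step hY hx hy, ?_⟩
    rw [Set.image_insert_eq, hf]

theorem Ext.lift_anti {f : P → Q} (hf : ∀ x y, f (x * y) = f y * f x) {k : ℕ} {X : Set P}
    {Y' : Set Q} (h : Ext k (f '' X) Y') : ∃ Y, Ext k X Y ∧ Y' = f '' Y := by
  generalize hX : f '' X = X' at h
  induction h with
  | refl X' => exact ⟨X, Ext.refl X, hX.symm⟩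
  | @step m X' Y' x' y' h hx hy ih =>
    obtain ⟨Y, hY, rfl⟩ := ih hX
    obtain ⟨x, hx, rfl⟩ := hx
    obtain ⟨y, hy, rfl⟩ := hy
    refine ⟨insert (y * x) Y, Ext.step hY hy hx, ?_⟩
    rw [Set.image_insert_eq, hf]

theorem Reach.lift {f : P → Q} (hf : ∀ x y, f (x * y) = f x * f y) {m : ℕ} {X : Set P} {b : P}
    (h : Reach m (f '' X) {f b}) : ∃ b', f b' = f b ∧ Reach m X {b'} := by
  obtain ⟨k, hk, Y', hY', hb⟩ := h
  obtain ⟨Y, hY, rfl⟩ := hY'.lift hf
  obtain ⟨b', hb', hbb⟩ := hb rfl
  exact ⟨b', hbb, k, hk, Y, hY, by simpa using hb'⟩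

theorem Reach.lift_anti {f : P → Q} (hf : ∀ x y, f (x * y) = f y * f x) {m : ℕ} {X : Set P}
    {b : P} (h : Reach m (f '' X) {f b}) : ∃ b', f b' = f b ∧ Reach m X {b'} := by
  obtain ⟨k, hk, Y', hY', hb⟩ := h
  obtain ⟨Y, hY, rfl⟩ := hY'.lift_anti hf
  obtain ⟨b', hb', hbb⟩ := hb rfl
  exact ⟨b', hbb, k, hk, Y, hY, by simpa using hb'⟩

theorem Gen.map {f : P → Q} (hf : ∀ x y, f (x * y) = f x * f y) {A : Set P} {b : P}
    (h : Gen A b) : Gen (f '' A) (f b) := by
  induction h with
  | base ha => exact Gen.base ⟨_, ha, rfl⟩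
  | snoc _ ha ih => rw [hf]; exact ih.snoc ⟨_, ha, rfl⟩

theorem Gen.map_anti {f : P → Q} (hf : ∀ x y, f (x * y) = f y * f x) {A : Set P} {b : P}
    (h : Gen A b) : Gen (f '' A) (f b) := by
  induction h with
  | base ha => exact Gen.base ⟨_, ha, rfl⟩
  | @snoc w a _ ha ih =>
    rw [hf]
    exact (Gen.base (A := f '' A) (a := f a) ⟨_, ha, rfl⟩).mul ih

end Transport

/-! ### The largest congruence inside `L` -/

section Lcon

variable {S : Type u} [Semigroup S] {M : ℕ}

/-- The largest congruence contained in Green's relation `L`. -/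
def Lcon (h : HasInv M S) : Con S where
  r s t := (LLe s t ∧ LLe t s) ∧ ∀ x, LLe (x * s) (x * t) ∧ LLe (x * t) (x * s)
  iseqv :=
    { refl := fun s => ⟨⟨LLe.refl h s, LLe.refl h s⟩,
        fun x => ⟨LLe.refl h _, LLe.refl h _⟩⟩
      symm := fun {s t} hst => ⟨⟨hst.1.2, hst.1.1⟩, fun x => ⟨(hst.2 x).2, (hst.2 x).1⟩⟩
      trans := fun {s t u} hst htu => ⟨⟨hst.1.1.trans htu.1.1, htu.1.2.trans hst.1.2⟩,
        fun x => ⟨(hst.2 x).1.trans (htu.2 x).1, (htu.2 x).2.trans (hst.2 x).2⟩⟩ }
  mul' := by
    have right : ∀ {a b : S} (c : S), LLe a b → LLe (a * c) (b * c) := by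
      rintro a b c ⟨t, rfl⟩
      exact ⟨t, mul_assoc _ _ _⟩
    intro w x y z hwx hyz
    refine ⟨⟨?_, ?_⟩, fun u => ⟨?_, ?_⟩⟩
    · exact ((hyz.2 w).1).trans (right z hwx.1.1)
    · exact (right z hwx.1.2).trans (hyz.2 w).2
    · have h1 := (hyz.2 (u * w)).1
      have h2 := right z (hwx.2 u).1
      simp only [mul_assoc] at h1 h2 ⊢
      exact h1.trans h2
    · have h1 := (hyz.2 (u * w)).2
      have h2 := right z (hwx.2 u).2
      simp only [mul_assoc] at h1 h2 ⊢
      exact h2.trans h1

theorem HasInv.quot (h : HasInv M S) (c : Con S) : HasInv M c.Quotient := by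
  have hpw : ∀ n (x : S), ((pw n x : S) : c.Quotient) = pw n (x : c.Quotient) := by
    intro n x
    induction n with
    | zero => rfl
    | succ n ih => rw [pw_succ, Con.coe_mul, ih, pw_succ]
  intro x
  induction x using Con.induction_on with
  | _ x =>
    rw [← hpw, ← Con.coe_mul, ← Con.coe_mul, h x]

theorem HasInv.pi (h : HasInv M S) (n : ℕ) : HasInv M (Fin n → S) := by
  intro x
  funext j
  have hpw : ∀ k (x : Fin n → S) j, pw k x j = pw k (x j) := by
    intro k x j
    induction k with
    | zero => rfl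
    | succ k ih => rw [pw_succ, Pi.mul_apply, ih, pw_succ]
  rw [Pi.mul_apply, Pi.mul_apply, hpw, h (x j)]

theorem HasInv.op (h : HasInv M S) : HasInv M Sᵐᵒᵖ := by
  intro x
  have hpw : ∀ k (x : Sᵐᵒᵖ), (pw k x).unop = pw k x.unop := by
    intro k x
    induction k with
    | zero => rfl
    | succ k ih => rw [pw_succ, MulOpposite.unop_mul, ih, pw_succ']
  apply MulOpposite.unop_injective
  rw [MulOpposite.unop_mul, MulOpposite.unop_mul, hpw, ← mul_assoc, h]

/-- polynomially long straight-line programs in all powers of `S` -/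
def Good (S : Type u) [Semigroup S] : Prop :=
  ∃ C : ℕ, ∀ n k : ℕ, ∀ A : Finset (Fin n → S), A.card ≤ k → ∀ b, Gen (↑A : Set (Fin n → S)) b →
    Reach (C * (n + k + 1) ^ C) (↑A) {b}

theorem good_of_op (h : Good Sᵐᵒᵖ) : Good S := by
  classical
  obtain ⟨C, hC⟩ := h
  refine ⟨C, fun n k A hA b hb => ?_⟩
  set f : (Fin n → S) → (Fin n → Sᵐᵒᵖ) := fun x j => MulOpposite.op (x j) with hf
  have hanti : ∀ x y, f (x * y) = f y * f x := by
    intro x y
    funext j
    simp [hf]
  have hinj : Function.Injective f := by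
    intro x y hxy
    funext j
    have := congrFun hxy j
    exact MulOpposite.op_injective this
  have h1 := hC n k (A.image f) (Finset.card_image_le.trans hA) (f b) (by
    rw [Finset.coe_image]
    exact hb.map_anti hanti)
  rw [Finset.coe_image] at h1
  obtain ⟨b', hb', hR⟩ := Reach.lift_anti hanti h1
  rwa [hinj hb'] at hR

end Lcon

/-! ### polynomially bounded functions of two variables -/

/-- bounded by a polynomial in `n + k`. -/
def PB (f : ℕ → ℕ → ℕ) : Prop := ∃ C : ℕ, ∀ n k, f n k ≤ C * (n + k + 1) ^ C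

theorem PB.mono {f g : ℕ → ℕ → ℕ} (hg : PB g) (h : ∀ n k, f n k ≤ g n k) : PB f := by
  obtain ⟨C, hC⟩ := hg
  exact ⟨C, fun n k => (h n k).trans (hC n k)⟩

theorem PB.const (c : ℕ) : PB (fun _ _ => c) :=
  ⟨c, fun n k => Nat.le_mul_of_pos_right _ (by positivity)⟩

theorem PB.fst : PB (fun n _ => n) := ⟨1, fun n k => by simp; omega⟩
theorem PB.snd : PB (fun _ k => k) := ⟨1, fun n k => by simp; omega⟩

theorem PB.add {f g : ℕ → ℕ → ℕ} (hf : PB f) (hg : PB g) : PB (fun n k => f n k + g n k) := by
  obtain ⟨C, hC⟩ := hf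
  obtain ⟨D, hD⟩ := hg
  refine ⟨C + D, fun n k => ?_⟩
  have h1 : (n + k + 1) ^ C ≤ (n + k + 1) ^ (C + D) :=
    Nat.pow_le_pow_right (by omega) (by omega)
  have h2 : (n + k + 1) ^ D ≤ (n + k + 1) ^ (C + D) :=
    Nat.pow_le_pow_right (by omega) (by omega)
  calc f n k + g n k ≤ C * (n + k + 1) ^ C + D * (n + k + 1) ^ D := add_le_add (hC n k) (hD n k)
    _ ≤ C * (n + k + 1) ^ (C + D) + D * (n + k + 1) ^ (C + D) :=
      add_le_add (Nat.mul_le_mul_left _ h1) (Nat.mul_le_mul_left _ h2)
    _ = _ := by ring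

theorem PB.mul {f g : ℕ → ℕ → ℕ} (hf : PB f) (hg : PB g) : PB (fun n k => f n k * g n k) := by
  obtain ⟨C, hC⟩ := hf
  obtain ⟨D, hD⟩ := hg
  refine ⟨C * D + (C + D), fun n k => ?_⟩
  have h2 : (n + k + 1) ^ (C + D) ≤ (n + k + 1) ^ (C * D + (C + D)) :=
    Nat.pow_le_pow_right (by omega) (by omega)
  calc f n k * g n k ≤ (C * (n + k + 1) ^ C) * (D * (n + k + 1) ^ D) :=
      Nat.mul_le_mul (hC n k) (hD n k)
    _ = (C * D) * (n + k + 1) ^ (C + D) := by rw [pow_add]; ring
    _ ≤ (C * D + (C + D)) * (n + k + 1) ^ (C * D + (C + D)) :=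
      Nat.mul_le_mul (by omega) h2

/-! ### The recursion through `L`-quotients -/

section Rec

variable {S : Type u} [Semigroup S] {M : ℕ}

theorem good_of_Lquot [Finite S] (h : HasInv M S) (hq : Good (Lcon h).Quotient) : Good S := by
  classical
  have := Fintype.ofFinite S
  obtain ⟨C, hC⟩ := hq
  set Λ : ℕ → ℕ → ℕ := fun n k => C * (n + k + 1) ^ C with hΛ
  -- logarithm of the size
  set ℓ : ℕ → ℕ := fun n => n * Fintype.card S with hℓ
  set F : ℕ → ℕ → ℕ := fun n k =>
    k * (Λ n k + M + 3 + (ℓ n + 1) * (2 * ℓ n + M + (Λ n k + 3) + 3)) with hF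
  have hPB : PB F := by
    have hΛP : PB Λ := ⟨C, fun n k => le_rfl⟩
    have hℓP : PB (fun n _ => ℓ n) := PB.fst.mul (PB.const _)
    have h1 : PB (fun n k => Λ n k + M + 3) := (hΛP.add (PB.const M)).add (PB.const 3)
    have h2 : PB (fun n _ => ℓ n + 1) := hℓP.add (PB.const 1)
    have h3 : PB (fun n k => 2 * ℓ n + M + (Λ n k + 3) + 3) :=
      ((((PB.const 2).mul hℓP).add (PB.const M)).add (hΛP.add (PB.const 3))).add (PB.const 3)
    exact PB.snd.mul (h1.add (h2.mul h3))
  obtain ⟨E, hE⟩ := hPB
  refine ⟨E, fun n k A hA b hb => ?_⟩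
  refine Reach.mono (m := F n k) ?_ (hE n k) subset_rfl subset_rfl
  have hcard : Nat.card (Fin n → S) < 2 ^ (ℓ n + 1) := by
    rw [Nat.card_eq_fintype_card, Fintype.card_fun, Fintype.card_fin, hℓ]
    calc Fintype.card S ^ n ≤ (2 ^ Fintype.card S) ^ n :=
          Nat.pow_le_pow_left (Nat.lt_two_pow_self).le n
      _ = 2 ^ (n * Fintype.card S) := by rw [← pow_mul, mul_comm]
      _ < 2 ^ (n * Fintype.card S + 1) := Nat.pow_lt_pow_right (by omega) (by omega)
  refine reach_step (h.pi n) hcard (Λ := Λ n k) (k := k) ?_ k le_rfl A hA b hb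
  intro A hA y hy
  set f : (Fin n → S) → (Fin n → (Lcon h).Quotient) := fun x j => (x j : (Lcon h).Quotient)
    with hf
  have hhom : ∀ x y, f (x * y) = f x * f y := by
    intro x y
    funext j
    simp [hf]
  have h1 := hC n k (A.image f) (Finset.card_image_le.trans hA) (f y) (by
    rw [Finset.coe_image]
    exact hy.map hhom)
  rw [Finset.coe_image] at h1
  obtain ⟨l, hl, hR⟩ := Reach.lift hhom h1
  have hrel : ∀ j, Lcon h (l j) (y j) := by
    intro j
    have := congrFun hl j
    exact (Con.eq _).1 this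
  have hLL : LLe y l := by
    choose t ht using fun j => (hrel j).1.2
    exact ⟨t, funext ht⟩
  have hLL' : LLe l y := by
    choose t ht using fun j => (hrel j).1.1
    exact ⟨t, funext ht⟩
  exact ⟨l, hR.gen, hLL, LLe.jle (h.pi n) hLL', hR⟩

theorem good_of_semilattice (h : HasInv M S) (hc : ∀ x y : S, x * y = y * x)
    (hi : ∀ x : S, x * x = x) : Good S := by
  classical
  refine ⟨1, fun n k A hA b hb => ?_⟩
  have hP := h.pi n
  have hcP : ∀ x y : Fin n → S, x * y = y * x := fun x y => funext fun j => hc _ _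
  have hiP : ∀ x : Fin n → S, x * x = x := fun x => funext fun j => hi _
  have key : ∀ k, ∀ A : Finset (Fin n → S), A.card ≤ k → ∀ b, Gen (↑A : Set (Fin n → S)) b →
      Reach k (↑A) {b} := by
    intro k
    induction k with
    | zero =>
      intro A hA b hb
      exfalso
      have : A = ∅ := by simpa using hA
      subst this
      simp only [Finset.coe_empty] at hb
      induction hb with
      | base ha => exact ha
      | snoc _ ha _ => exact ha
    | succ k ih =>
      intro A hA b hb
      obtain ⟨r, hr, ⟨t, ht⟩, ⟨s, t', hst⟩, hR⟩ := exists_R_rep hP hA ih hb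
      have h1 : r * b = b := by rw [ht, ← mul_assoc, hiP]
      have h2 : r * b = r := by
        have : r = b * (s * t') := by rw [hst, hcP s b, mul_assoc]
        rw [this, mul_assoc, hcP (s * t') b, ← mul_assoc, hiP]
      have : r = b := h2.symm.trans h1
      rwa [this] at hR
  refine (key k A hA b hb).mono ?_ subset_rfl subset_rfl
  simp; omega

end Rec

/-! ### Trivial `L°` and `R°` imply semilattice -/

section Triv

variable {S : Type u} [Semigroup S] {M : ℕ}

/-- The largest congruence inside `R`, written out. -/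
def RconRel (s t : S) : Prop := (RLe s t ∧ RLe t s) ∧ ∀ x, RLe (s * x) (t * x) ∧ RLe (t * x) (s * x)

theorem semilattice_of_trivial [Finite S] (h : HasInv M S)
    (hL : ∀ s t : S, Lcon h s t → s = t) (hR : ∀ s t : S, RconRel s t → s = t) :
    (∀ x y : S, x * y = y * x) ∧ ∀ x : S, x * x = x := by
  -- strict J-order is well founded
  have hwf : WellFounded (fun x y : S => JLe x y ∧ ¬ JLe y x) := by
    have : IsTrans S (fun x y : S => JLe x y ∧ ¬ JLe y x) :=
      ⟨fun a b c hab hbc => ⟨hab.1.trans hbc.1, fun hca => hab.2 (hbc.1.trans hca)⟩⟩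
    have : Std.Irrefl (fun x y : S => JLe x y ∧ ¬ JLe y x) := ⟨fun a h => h.2 h.1⟩
    exact Finite.wellFounded_of_trans_of_irrefl _
  have key : ∀ x : S, (∀ y, LLe x y → LLe y x → x = y) ∧ (∀ y, RLe x y → RLe y x → x = y) := by
    intro x
    induction x using hwf.induction with
    | _ x ih =>
      -- J-equivalent elements strictly below `x` are equal
      have hsing : ∀ p q : S, JLe p x → ¬ JLe x p → JLe p q → JLe q p → p = q := by
        intro p q hpx hxp hpq hqp
        have hq : JLe q x ∧ ¬ JLe x q := ⟨hqp.trans hpx, fun h' => hxp (h'.trans hqp)⟩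
        have h1 : p = p * q := (ih p ⟨hpx, hxp⟩).2 _ (rle_mul h hpq) ⟨q, rfl⟩
        have h2 : q = p * q := (ih q hq).1 _ (lle_mul h hqp) ⟨p, rfl⟩
        exact h1.trans h2.symm
      constructor
      · intro y hxy hyx
        apply hL
        have hJxy := LLe.jle h hxy
        have hJyx := LLe.jle h hyx
        refine ⟨⟨hxy, hyx⟩, fun u => ?_⟩
        by_cases hu : JLe x (u * x)
        · have hxu : JLe x u := hu.trans (jle_mul_left h u x)
          have hy : LLe y (u * y) := lle_mul h (hJyx.trans hxu)
          have hx : LLe x (u * x) := lle_mul_of_jle h hu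
          exact ⟨(LLe.trans ⟨u, rfl⟩ hxy).trans hy, (LLe.trans ⟨u, rfl⟩ hyx).trans hx⟩
        · have : u * x = u * y := by
            apply hsing _ _ (jle_mul_right h u x) hu
            · exact jle_mul h (jle_mul_left h u x) ((jle_mul_right h u x).trans hJxy)
            · exact jle_mul h (jle_mul_left h u y) ((jle_mul_right h u y).trans hJyx)
          rw [this]
          exact ⟨LLe.refl h _, LLe.refl h _⟩
      · intro y hxy hyx
        apply hR
        have hJxy := RLe.jle h hxy
        have hJyx := RLe.jle h hyx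
        refine ⟨⟨hxy, hyx⟩, fun u => ?_⟩
        by_cases hu : JLe x (x * u)
        · have hxu : JLe x u := hu.trans (jle_mul_right h x u)
          have hy : RLe y (y * u) := rle_mul h (hJyx.trans hxu)
          have hx : RLe x (x * u) := rle_mul_of_jle h hu
          exact ⟨(RLe.trans ⟨u, rfl⟩ hxy).trans hy, (RLe.trans ⟨u, rfl⟩ hyx).trans hx⟩
        · have : x * u = y * u := by
            apply hsing _ _ (jle_mul_left h x u) hu
            · exact jle_mul h ((jle_mul_left h x u).trans hJxy) (jle_mul_right h x u)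
            · exact jle_mul h ((jle_mul_left h y u).trans hJyx) (jle_mul_right h y u)
          rw [this]
          exact ⟨RLe.refl h _, RLe.refl h _⟩
  have hJ : ∀ p q : S, JLe p q → JLe q p → p = q := by
    intro p q hpq hqp
    have h1 : p = p * q := (key p).2 _ (rle_mul h hpq) ⟨q, rfl⟩
    have h2 : q = p * q := (key q).1 _ (lle_mul h hqp) ⟨p, rfl⟩
    exact h1.trans h2.symm
  constructor
  · intro x y
    apply hJ
    · exact jle_mul h (jle_mul_right h x y) (jle_mul_left h x y)
    · exact jle_mul h (jle_mul_right h y x) (jle_mul_left h y x)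
  · intro x
    exact (hJ x (x * x) (jle_mul h (JLe.refl h x) (JLe.refl h x)) (jle_mul_left h x x)).symm

end Triv

/-- **Main combinatorial theorem.** -/
theorem good_of_hasInv (M : ℕ) : ∀ (N : ℕ) (S : Type u) [Semigroup S] [Finite S],
    Nat.card S ≤ N → HasInv M S → Good S := by
  intro N
  induction N with
  | zero =>
    intro S _ _ hN h
    have hemp : IsEmpty S := by
      rcases Nat.card_eq_zero.1 (Nat.le_zero.1 hN) with h1 | h1
      · exact h1
      · exact absurd h1 (not_infinite_iff_finite.2 inferInstance)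
    exact good_of_semilattice h (fun x => (hemp.false x).elim) (fun x => (hemp.false x).elim)
  | succ N ih =>
    intro S _ _ hN h
    -- quotient by a nontrivial congruence is smaller
    have small : ∀ (T : Type u) [Semigroup T] [Finite T] (c : Con T), Nat.card T ≤ N + 1 →
        (∃ s t : T, c s t ∧ s ≠ t) → Nat.card c.Quotient ≤ N := by
      intro T _ _ c hT ⟨s, t, hst, hne⟩
      have hsurj : Function.Surjective (fun x : T => (x : c.Quotient)) := by
        intro x
        induction x using Con.induction_on with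
        | _ x => exact ⟨x, rfl⟩
      have hlt : Nat.card c.Quotient < Nat.card T := by
        have hle := Nat.card_le_card_of_surjective _ hsurj
        rcases hle.lt_or_eq with h1 | h1
        · exact h1
        · exfalso
          have hinj := ((Nat.bijective_iff_surjective_and_card
            (fun x : T => (x : c.Quotient))).2 ⟨hsurj, h1.symm⟩).1
          exact hne (hinj ((Con.eq _).2 hst))
      omega
    by_cases hL : ∃ s t : S, Lcon h s t ∧ s ≠ t
    · have h1 := small S (Lcon h) hN hL
      have : Finite (Lcon h).Quotient := by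
        apply Finite.of_surjective (fun x : S => (x : (Lcon h).Quotient))
        intro x
        induction x using Con.induction_on with
        | _ x => exact ⟨x, rfl⟩
      exact good_of_Lquot h (ih _ h1 (h.quot _))
    · by_cases hR : ∃ s t : Sᵐᵒᵖ, Lcon h.op s t ∧ s ≠ t
      · have hN' : Nat.card Sᵐᵒᵖ ≤ N + 1 := by
          rw [Nat.card_congr (MulOpposite.opEquiv (α := S)).symm]
          exact hN
        have hfin : Finite Sᵐᵒᵖ := Finite.of_equiv S MulOpposite.opEquiv
        have h1 := small Sᵐᵒᵖ (Lcon h.op) hN' hR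
        have : Finite (Lcon h.op).Quotient := by
          apply Finite.of_surjective (fun x : Sᵐᵒᵖ => (x : (Lcon h.op).Quotient))
          intro x
          induction x using Con.induction_on with
          | _ x => exact ⟨x, rfl⟩
        exact good_of_op (good_of_Lquot h.op (ih _ h1 (h.op.quot _)))
      · push Not at hL hR
        have hR' : ∀ s t : S, RconRel s t → s = t := by
          have tr : ∀ a b : S, RLe a b → LLe (MulOpposite.op a) (MulOpposite.op b) := by
            rintro a b ⟨t, rfl⟩
            exact ⟨MulOpposite.op t, by simp⟩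
          intro s t hst
          have := hR (MulOpposite.op s) (MulOpposite.op t)
            ⟨⟨tr _ _ hst.1.1, tr _ _ hst.1.2⟩, fun x => by
              have hx := hst.2 x.unop
              have e1 : x * MulOpposite.op s = MulOpposite.op (s * x.unop) := by simp
              have e2 : x * MulOpposite.op t = MulOpposite.op (t * x.unop) := by simp
              rw [e1, e2]
              exact ⟨tr _ _ hx.1, tr _ _ hx.2⟩⟩
          exact MulOpposite.op_injective this
        obtain ⟨hc, hi⟩ := semilattice_of_trivial h hL hR'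
        exact good_of_semilattice h hc hi

theorem exists_hasInv {S : Type u} [Semigroup S] [Finite S] (h : CompletelyRegular S) :
    ∃ M, HasInv M S := by
  classical
  have := Fintype.ofFinite S
  -- each element satisfies `a^(p+2) = a` for some `p`
  have h1 : ∀ a : S, ∃ p, pw (p + 1) a = a := by
    intro a
    obtain ⟨z, hz1, hz2⟩ := h a
    -- powers are not injective
    have hni : ¬ Function.Injective (fun n : ℕ => pw n a) := not_injective_infinite_finite _
    have hex : ∃ i j, i < j ∧ pw i a = pw j a := by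
      rw [Function.Injective] at hni
      push Not at hni
      obtain ⟨i, j, hij, hne⟩ := hni
      rcases lt_or_gt_of_ne hne with hlt | hlt
      · exact ⟨i, j, hlt, hij⟩
      · exact ⟨j, i, hlt, hij.symm⟩
    obtain ⟨i, j, hij, hE⟩ := hex
    -- cancel
    have hcancel : ∀ n, pw (n + 1) a * z = pw n a := by
      intro n
      induction n with
      | zero => rw [pw_succ, pw_zero, mul_assoc, hz2, ← mul_assoc]; exact hz1.symm
      | succ n ih =>
        have e : pw (n + 1 + 1) a = a * pw (n + 1) a := pw_succ' _ _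
        rw [e, mul_assoc, ih, ← pw_succ']
    have hred : ∀ i d, pw i a = pw (i + d + 1) a → pw (d + 1) a = a := by
      intro i
      induction i with
      | zero => intro d hd; rw [pw_zero, Nat.zero_add] at hd; exact hd.symm
      | succ i ih =>
        intro d hd
        apply ih d
        have e1 : i + 1 + d + 1 = (i + d + 1) + 1 := by omega
        rw [e1] at hd
        rw [← hcancel i, hd, hcancel]
    obtain ⟨d, rfl⟩ : ∃ d, j = i + d + 1 := ⟨j - i - 1, by omega⟩
    exact ⟨d, hred i d hE⟩
  choose p hp using h1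
  -- `a ^ (1 + (p+1) * k) = a`
  have h2 : ∀ (a : S) (k : ℕ), pw ((p a + 1) * k) a = a := by
    intro a k
    induction k with
    | zero => rfl
    | succ k ih =>
      have e : (p a + 1) * (k + 1) = (p a + 1) * k + p a + 1 := by ring
      rw [e, pw_add, ih]
      have := hp a
      rwa [pw_succ'] at this
  set N := ∏ a : S, (p a + 1) with hN
  have h3 : ∀ a : S, pw (2 * N) a = a := by
    intro a
    have hdvd : (p a + 1) ∣ N := Finset.dvd_prod_of_mem _ (Finset.mem_univ a)
    obtain ⟨k, hk⟩ := hdvd
    rw [hk, show 2 * ((p a + 1) * k) = (p a + 1) * (2 * k) by ring]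
    exact h2 a _
  have hNpos : 0 < N := Finset.prod_pos fun a _ => Nat.succ_pos _
  refine ⟨2 * N - 2, fun a => ?_⟩
  have e : 2 * N = (2 * N - 2) + 1 + 1 := by omega
  have h4 := h3 a
  rw [e, pw_succ, pw_succ'] at h4
  exact h4

/-- Straight-line programs of polynomial length exist in all powers of a finite completely regular
semigroup. -/
theorem good_of_completelyRegular {S : Type u} [Semigroup S] [Finite S]
    (h : CompletelyRegular S) : Good S := by
  obtain ⟨M, hM⟩ := exists_hasInv h
  exact good_of_hasInv M _ S le_rfl hM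

end Pool.Agent.SMP
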