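import Pool.Agent.Complexity.NP
import Pool.Agent.SMP.Main

/-!
# A real-time machine verifying straight-line programs over tuples
-/

set_option backward.isDefEq.respectTransparency false
set_option linter.unusedSectionVars false

namespace Pool.Agent.SMP

open RTM

/-! ### blocks -/

section Blocks

variable {S : Type}

/-- a block: the entries of a tuple followed by the separator `none` -/
def bl (l : List S) : List (Option S) := l.map some ++ [none]

/-- concatenation of blocks -/
def st (X : List (List S)) : List (Option S) := (X.map bl).flatten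

@[simp] theorem st_nil : st ([] : List (List S)) = [] := rfl

theorem st_cons (x : List S) (X : List (List S)) : st (x :: X) = x.map some ++ none :: st X := by
  simp [st, bl]

theorem st_append (X Y : List (List S)) : st (X ++ Y) = st X ++ st Y := by
  simp [st]

theorem st_snoc (X : List (List S)) (x : List S) : st (X ++ [x]) = st X ++ (x.map some ++ [none]) := by
  simp [st, bl]

theorem split_first : ∀ (u x : List S) (C D : List (Option S)),
    u.map some ++ none :: C = x.map some ++ none :: D → u = x ∧ C = D
  | [], [], C, D, h => by simpa using h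
  | [], s :: x, C, D, h => by simp at h
  | s :: u, [], C, D, h => by simp at h
  | s :: u, t :: x, C, D, h => by
    simp only [List.map_cons, List.cons_append, List.cons.injEq, Option.some.injEq] at h
    obtain ⟨h1, h2⟩ := split_first u x C D h.2
    exact ⟨by rw [h.1, h1], h2⟩

theorem skip_block : ∀ (x : List S) (A C D : List (Option S)),
    A ++ none :: C = x.map some ++ none :: D →
      ∃ A', A = x.map some ++ A' ∧ A' ++ none :: C = none :: D
  | [], A, C, D, h => ⟨A, rfl, h⟩
  | s :: x, [], C, D, h => by simp at h
  | s :: x, a :: A, C, D, h => by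
    simp only [List.map_cons, List.cons_append, List.cons.injEq] at h
    obtain ⟨A', h1, h2⟩ := skip_block x A C D h.2
    exact ⟨A', by rw [h.1, h1]; rfl, h2⟩

theorem mem_of_parse : ∀ (X : List (List S)) (A : List (Option S)) (u : List S)
    (C : List (Option S)), A ++ none :: (u.map some ++ none :: C) = none :: st X → u ∈ X
  | [], A, u, C, h => by
    exfalso
    have := congrArg List.length h
    simp only [st_nil, List.length_append, List.length_cons, List.length_nil] at this
    omega
  | x :: X, [], u, C, h => by
    rw [st_cons] at h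
    simp only [List.nil_append, List.cons.injEq, true_and] at h
    rw [(split_first _ _ _ _ h).1]
    exact List.mem_cons_self
  | x :: X, a :: A, u, C, h => by
    rw [st_cons] at h
    simp only [List.cons_append, List.cons.injEq] at h
    obtain ⟨A', -, h2⟩ := skip_block _ _ _ _ h.2
    exact List.mem_cons_of_mem _ (mem_of_parse X A' u C h2)

end Blocks

/-! ### the machine -/

/-- control states -/
inductive Mode
  | rdB | pos1 | copy | pos2 | mul | ret | app | cmp | acc | fail
  deriving DecidableEq, Fintype

/-- stacks: left part `P` and right part `Q` of the store, `W` first factor, `V` product, `B`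
target -/
inductive Stk
  | P | Q | W | V | B
  deriving DecidableEq, Fintype

section Machine

variable {S : Type} [Semigroup S]

/-- tuple of actions -/
def ac (p q w v b : Act (Option S)) : Stk → Act (Option S)
  | .P => p
  | .Q => q
  | .W => w
  | .V => v
  | .B => b

open Classical in
/-- transition function -/
noncomputable def tr (m : Mode) (a : Option S ⊕ Bool × Bool) (t : Stk → Option (Option S)) :
    Mode × (Stk → Act (Option S)) :=
  match m, a with
  | .rdB, .inl (some s) => (.rdB, ac .keep .keep .keep .keep (.push (some s)))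
  | .rdB, .inl none => (.pos1, ac (.push none) .keep .keep .keep .keep)
  | .rdB, .inr _ => (.fail, ac .keep .keep .keep .keep .keep)
  | .pos1, .inl x => (.pos1, ac (.push x) .keep .keep .keep .keep)
  | .pos1, .inr (false, false) =>
    match t .P with
    | some x => (.pos1, ac .pop (.push x) .keep .keep .keep)
    | none => (.fail, ac .keep .keep .keep .keep .keep)
  | .pos1, .inr (false, true) =>
    match t .Q with
    | some x => (.pos1, ac (.push x) .pop .keep .keep .keep)
    | none => (.fail, ac .keep .keep .keep .keep .keep)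
  | .pos1, .inr (true, _) =>
    match t .P with
    | some none => (.copy, ac .keep .keep .keep .keep .keep)
    | _ => (.fail, ac .keep .keep .keep .keep .keep)
  | .copy, .inr _ =>
    match t .Q with
    | some (some s) => (.copy, ac (.push (some s)) .pop (.push (some s)) .keep .keep)
    | some none => (.pos2, ac .keep .keep .keep .keep .keep)
    | none => (.fail, ac .keep .keep .keep .keep .keep)
  | .pos2, .inr (false, false) =>
    match t .P with
    | some x => (.pos2, ac .pop (.push x) .keep .keep .keep)
    | none => (.fail, ac .keep .keep .keep .keep .keep)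
  | .pos2, .inr (false, true) =>
    match t .Q with
    | some x => (.pos2, ac (.push x) .pop .keep .keep .keep)
    | none => (.fail, ac .keep .keep .keep .keep .keep)
  | .pos2, .inr (true, false) =>
    match t .Q with
    | some none => (.mul, ac .keep .keep .keep .keep .keep)
    | _ => (.fail, ac .keep .keep .keep .keep .keep)
  | .pos2, .inr (true, true) => (.cmp, ac .keep .keep .keep .keep .keep)
  | .mul, .inr _ =>
    match t .P, t .W with
    | some (some y), some (some x) =>
      (.mul, ac .pop (.push (some y)) .pop (.push (some (x * y))) .keep)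
    | some none, none => (.ret, ac .keep .keep .keep .keep .keep)
    | _, _ => (.fail, ac .keep .keep .keep .keep .keep)
  | .ret, .inr _ =>
    match t .Q with
    | some x => (.ret, ac (.push x) .pop .keep .keep .keep)
    | none => (.app, ac .keep .keep .keep .keep .keep)
  | .app, .inr _ =>
    match t .V with
    | some x => (.app, ac (.push x) .keep .keep .pop .keep)
    | none => (.pos1, ac (.push none) .keep .keep .keep .keep)
  | .cmp, .inr _ =>
    match t .W, t .B with
    | some x, some y =>
      if x = y then (.cmp, ac .keep .keep .pop .keep .pop)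
      else (.fail, ac .keep .keep .keep .keep .keep)
    | none, none => (.acc, ac .keep .keep .keep .keep .keep)
    | _, _ => (.fail, ac .keep .keep .keep .keep .keep)
  | .acc, _ => (.acc, ac .keep .keep .keep .keep .keep)
  | _, _ => (.fail, ac .keep .keep .keep .keep .keep)

/-- the verifier for straight-line programs -/
noncomputable def slpMach (S : Type) [Semigroup S] :
    Mach (Option S ⊕ Bool × Bool) (Option S) where
  K := Stk
  Q := Mode
  q0 := .rdB
  δ := tr
  acc m := decide (m = .acc)

/-- configurations of the verifier -/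
def cf (m : Mode) (P Q W V B : List (Option S)) : (slpMach S).Conf :=
  (m, fun k => match k with
    | .P => P
    | .Q => Q
    | .W => W
    | .V => V
    | .B => B)

theorem eq_cf (c : (slpMach S).Conf) : c = cf c.1 (c.2 .P) (c.2 .Q) (c.2 .W) (c.2 .V) (c.2 .B) := by
  refine Prod.ext rfl (funext fun k => ?_)
  cases k <;> rfl

/-- the set of store words consistent with a list of blocks satisfying `T` -/
def Store (T : List S → Prop) (P Q : List (Option S)) : Prop :=
  ∃ X : List (List S), (∀ x ∈ X, T x) ∧ P.reverse ++ Q = none :: st X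

/-- the invariant -/
def Inv (T : List S → Prop) (b : List S) (c : (slpMach S).Conf) : Prop :=
  match c.1 with
  | .rdB => False
  | .pos1 => Store T (c.2 .P) (c.2 .Q) ∧ c.2 .W = [] ∧ c.2 .V = [] ∧
      c.2 .B = (b.map some).reverse
  | .copy => Store T (c.2 .P) (c.2 .Q) ∧ (∃ (u : List S) (P0 : List (Option S)),
      c.2 .P = (u.map some).reverse ++ none :: P0 ∧ c.2 .W = (u.map some).reverse) ∧
      c.2 .V = [] ∧ c.2 .B = (b.map some).reverse
  | .pos2 => Store T (c.2 .P) (c.2 .Q) ∧ (∃ x : List S, T x ∧ c.2 .W = (x.map some).reverse) ∧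
      c.2 .V = [] ∧ c.2 .B = (b.map some).reverse
  | .mul => Store T (c.2 .P) (c.2 .Q) ∧ (∃ (x₁ x₂ y₂ : List S) (Q0 : List (Option S)),
      T (x₁ ++ x₂) ∧ x₂.length = y₂.length ∧ c.2 .W = (x₁.map some).reverse ∧
      c.2 .Q = y₂.map some ++ none :: Q0 ∧ c.2 .V = (List.zipWith (· * ·) x₂ y₂).map some) ∧
      c.2 .B = (b.map some).reverse
  | .ret => Store T (c.2 .P) (c.2 .Q) ∧ (∃ v : List S, T v ∧ c.2 .V = v.map some) ∧
      c.2 .W = [] ∧ c.2 .B = (b.map some).reverse
  | .app => (∃ (X : List (List S)) (v₁ v₂ : List S), (∀ x ∈ X, T x) ∧ T (v₁ ++ v₂) ∧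
      (c.2 .P).reverse = none :: st X ++ v₁.map some ∧ c.2 .V = v₂.map some) ∧ c.2 .Q = [] ∧
      c.2 .W = [] ∧ c.2 .B = (b.map some).reverse
  | .cmp => ∃ x₁ t b₁ : List S, T (x₁ ++ t) ∧ b = b₁ ++ t ∧ c.2 .W = (x₁.map some).reverse ∧
      c.2 .B = (b₁.map some).reverse
  | .acc => T b
  | .fail => True

theorem store_left {T : List S → Prop} {x : Option S} {P Q : List (Option S)}
    (h : Store T (x :: P) Q) : Store T P (x :: Q) := by
  obtain ⟨X, hX, h⟩ := h
  refine ⟨X, hX, ?_⟩
  rw [← h]
  simp

theorem store_right {T : List S → Prop} {x : Option S} {P Q : List (Option S)}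
    (h : Store T P (x :: Q)) : Store T (x :: P) Q := by
  obtain ⟨X, hX, h⟩ := h
  refine ⟨X, hX, ?_⟩
  rw [← h]
  simp

theorem inv_step {T : List S → Prop}
    (hT : ∀ x y, T x → T y → x.length = y.length → T (List.zipWith (· * ·) x y))
    (b : List S) (m : Mode) (P Q W V B : List (Option S)) (i : Bool × Bool)
    (h : Inv T b (cf m P Q W V B)) : Inv T b ((slpMach S).step (cf m P Q W V B) (Sum.inr i)) := by
  cases m with
  | rdB => exact h.elim
  | fail => trivial
  | acc => exact h
  | pos1 =>
    obtain ⟨hs, hW, hV, hB⟩ := h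
    simp only [cf] at hs hW hV hB
    subst hW hV hB
    rcases i with ⟨_ | _, _ | _⟩
    · -- left
      cases P with
      | nil => trivial
      | cons x P => exact ⟨store_left hs, rfl, rfl, rfl⟩
    · cases Q with
      | nil => trivial
      | cons x Q => exact ⟨store_right hs, rfl, rfl, rfl⟩
    · rcases P with _ | ⟨_ | x, P⟩
      · trivial
      · exact ⟨hs, ⟨[], P, rfl, rfl⟩, rfl, rfl⟩
      · trivial
    · rcases P with _ | ⟨_ | x, P⟩
      · trivial
      · exact ⟨hs, ⟨[], P, rfl, rfl⟩, rfl, rfl⟩
      · trivial
  | copy =>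
    obtain ⟨hs, ⟨u, P0, hP, hW⟩, hV, hB⟩ := h
    simp only [cf] at hs hP hW hV hB
    subst hP hW hV hB
    rcases Q with _ | ⟨_ | x, Q⟩
    · trivial
    · refine ⟨hs, ⟨u, ?_, rfl⟩, rfl, rfl⟩
      obtain ⟨X, hX, h⟩ := hs
      apply hX
      apply mem_of_parse X P0.reverse u Q
      rw [← h]
      simp
    · refine ⟨store_right hs, ⟨u ++ [x], P0, ?_, ?_⟩, rfl, rfl⟩
      · simp [Mach.step, slpMach, tr, cf, ac]
      · simp [Mach.step, slpMach, tr, cf, ac]
  | pos2 =>
    obtain ⟨hs, ⟨x, hx, hW⟩, hV, hB⟩ := h
    simp only [cf] at hs hW hV hB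
    subst hW hV hB
    rcases i with ⟨_ | _, _ | _⟩
    · cases P with
      | nil => trivial
      | cons y P => exact ⟨store_left hs, ⟨x, hx, rfl⟩, rfl, rfl⟩
    · cases Q with
      | nil => trivial
      | cons y Q => exact ⟨store_right hs, ⟨x, hx, rfl⟩, rfl, rfl⟩
    · rcases Q with _ | ⟨_ | y, Q⟩
      · trivial
      · exact ⟨hs, ⟨x, [], [], Q, by simpa using hx, rfl, rfl, rfl, rfl⟩, rfl⟩
      · trivial
    · exact ⟨x, [], b, by simpa using hx, by simp, rfl, rfl⟩
  | mul =>
    obtain ⟨hs, ⟨x₁, x₂, y₂, Q0, hx, hlen, hW, hQ, hV⟩, hB⟩ := h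
    simp only [cf] at hs hW hQ hV hB
    subst hW hQ hV hB
    rcases List.eq_nil_or_concat x₁ with rfl | ⟨x₁, x, rfl⟩
    · rcases P with _ | ⟨_ | y, P⟩
      · trivial
      · refine ⟨hs, ⟨_, ?_, rfl⟩, rfl, rfl⟩
        apply hT _ _ (by simpa using hx) _ hlen
        obtain ⟨X, hX, h⟩ := hs
        apply hX
        apply mem_of_parse X P.reverse y₂ Q0
        rw [← h]
        simp
      · trivial
    · rcases P with _ | ⟨_ | y, P⟩
      · simp [Mach.step, slpMach, tr, cf, ac, Inv]
      · simp [Mach.step, slpMach, tr, cf, ac, Inv]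
      · have hs' := store_left hs
        have hstep : (slpMach S).step (cf Mode.mul (some y :: P) (y₂.map some ++ none :: Q0)
            (((x₁.concat x)).map some).reverse ((List.zipWith (· * ·) x₂ y₂).map some)
            (b.map some).reverse) (Sum.inr i) =
            cf Mode.mul P (((y :: y₂)).map some ++ none :: Q0) (x₁.map some).reverse
              ((List.zipWith (· * ·) (x :: x₂) (y :: y₂)).map some) (b.map some).reverse := by
          refine Prod.ext ?_ (funext fun k => ?_)
          · simp [Mach.step, slpMach, tr, cf, ac]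
          · cases k <;> simp [Mach.step, slpMach, tr, cf, ac]
        rw [hstep]
        exact ⟨hs', ⟨x₁, x :: x₂, y :: y₂, Q0, by simpa using hx, by simp [hlen], rfl, rfl, rfl⟩,
          rfl⟩
  | ret =>
    obtain ⟨hs, ⟨v, hv, hV⟩, hW, hB⟩ := h
    simp only [cf] at hs hW hV hB
    subst hW hV hB
    cases Q with
    | nil =>
      obtain ⟨X, hX, h⟩ := hs
      have h' : P.reverse = none :: st X ++ ([] : List S).map some := by simpa using h
      exact ⟨⟨X, [], v, hX, by simpa using hv, h', rfl⟩, rfl, rfl, rfl⟩
    | cons x Q => exact ⟨store_right hs, ⟨v, hv, rfl⟩, rfl, rfl⟩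
  | app =>
    obtain ⟨⟨X, v₁, v₂, hX, hv, hP, hV⟩, hQ, hW, hB⟩ := h
    simp only [cf] at hP hW hV hB hQ
    subst hW hV hB hQ
    cases v₂ with
    | nil =>
      refine ⟨⟨X ++ [v₁], ?_, ?_⟩, rfl, rfl, rfl⟩
      · intro x hx
        rw [List.mem_append, List.mem_singleton] at hx
        rcases hx with hx | rfl
        · exact hX x hx
        · simpa using hv
      · rw [st_snoc]
        simp only [Mach.step, slpMach, tr, cf, ac, List.map_nil, List.head?_nil, Act.app_push,
          Act.app_keep, List.reverse_cons, hP, List.append_nil]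
        simp
    | cons x v₂ =>
      refine ⟨⟨X, v₁ ++ [x], v₂, hX, by simpa using hv, ?_, rfl⟩, rfl, rfl, rfl⟩
      simp only [Mach.step, slpMach, tr, cf, ac, List.map_cons, List.head?_cons, Act.app_push,
          List.reverse_cons, hP]
      simp
  | cmp =>
    obtain ⟨x₁, t, b₁, hx, hb, hW, hB⟩ := h
    simp only [cf] at hW hB
    subst hW hB
    rcases List.eq_nil_or_concat x₁ with rfl | ⟨x₁, x, rfl⟩
    · rcases List.eq_nil_or_concat b₁ with rfl | ⟨b₁, y, rfl⟩
      · have : b = t := by simpa using hb
        subst this
        simpa [Mach.step, slpMach, tr, cf, ac, Inv] using hx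
      · simp [Mach.step, slpMach, tr, cf, ac, Inv]
    · rcases List.eq_nil_or_concat b₁ with rfl | ⟨b₁, y, rfl⟩
      · simp [Mach.step, slpMach, tr, cf, ac, Inv]
      · by_cases hxy : x = y
        · subst hxy
          have hstep : (slpMach S).step (cf Mode.cmp P Q
            (((x₁.concat x)).map some).reverse V
            ((b₁.concat x).map some).reverse) (Sum.inr i) =
            cf Mode.cmp P Q (x₁.map some).reverse V (b₁.map some).reverse := by
            refine Prod.ext ?_ (funext fun k => ?_)
            · simp [Mach.step, slpMach, tr, cf, ac]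
            · cases k <;> simp [Mach.step, slpMach, tr, cf, ac]
          rw [hstep]
          exact ⟨x₁, x :: t, b₁, by simpa using hx, by simpa using hb, rfl, rfl⟩
        · simp [Mach.step, slpMach, tr, cf, ac, Inv, hxy]

end Machine

end Pool.Agent.SMP
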