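import Pool.Agent.SMP.CR

/-!
# Reachability in kernels: doubling in groups and Schreier-type generators
-/

namespace Pool.Agent.SMP

universe u v

section

variable {P : Type u} [Semigroup P] {M : ℕ}

/-- Babai–Szemerédi doubling argument. -/
theorem group_reach [Finite P] {e : P} {G Γ X : Set P} {c ℓ : ℕ}
    (heG : e ∈ G) (hmul : ∀ x ∈ G, ∀ y ∈ G, x * y ∈ G)
    (hid : ∀ x ∈ G, e * x = x ∧ x * e = x)
    (hinv : ∀ x ∈ G, pw M x ∈ G ∧ pw M x * x = e ∧ x * pw M x = e)
    (hΓG : Γ ⊆ G) (hgen : ∀ g ∈ G, Gen Γ g)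
    (heX : e ∈ X) (hΓ : ∀ γ ∈ Γ, Reach c X {γ}) (hcard : Nat.card P < 2 ^ (ℓ + 1)) :
    ∀ g ∈ G, Reach ((ℓ + 1) * (2 * ℓ + M + c + 3)) X {g} := by
  classical
  have := Fintype.ofFinite P
  intro g hg
  by_contra hcon
  have key : ∀ i, i ≤ ℓ + 1 → ∃ C : Finset P, (↑C : Set P) ⊆ G ∧ e ∈ C ∧ C.card = 2 ^ i ∧
      ∃ F : Set P, Reach (i * (2 * ℓ + M + c + 2)) X F ∧ ∀ x ∈ C, Reach i (X ∪ F) {x} := by
    intro i
    induction i with
    | zero =>
      intro _
      refine ⟨{e}, by simpa using heG, by simp, by simp, ∅, ?_, ?_⟩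
      · exact Reach.of_subset (by simp) _
      · intro x hx
        rw [Finset.mem_singleton] at hx
        subst hx
        exact Reach.of_subset (by simp [heX]) _
    | succ i ih =>
      intro hi
      obtain ⟨C, hCG, heC, hCcard, F, hF, hCr⟩ := ih (by omega)
      have hiℓ : i ≤ ℓ := by omega
      -- the difference set
      set D : Set P := {d | ∃ x ∈ C, ∃ y ∈ C, d = pw M x * y} with hD
      have hDr : ∀ d ∈ D, Reach (2 * i + M + 1) (X ∪ F) {d} := by
        rintro d ⟨x, hx, y, hy, rfl⟩
        have h1 := (Reach.pw' (hCr x hx) M).mul' (hCr y hy)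
        exact h1.mono (by omega) subset_rfl subset_rfl
      have hDG : D ⊆ G := by
        rintro d ⟨x, hx, y, hy, rfl⟩
        exact hmul _ (hinv x (hCG hx)).1 _ (hCG hy)
      have heD : e ∈ D := by
        refine ⟨e, heC, e, heC, ?_⟩
        exact (hinv e heG).2.1.symm
      have hgD : g ∉ D := by
        intro hgD
        apply hcon
        have h1 := hF.trans (hDr g hgD)
        refine h1.mono ?_ subset_rfl (by simp)
        have : i * (2 * ℓ + M + c + 2) ≤ ℓ * (2 * ℓ + M + c + 2) := Nat.mul_le_mul_right _ hiℓ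
        nlinarith
      -- there is `d ∈ D`, `γ ∈ Γ` with `d * γ ∉ D`.
      have hex : ∃ d ∈ D, ∃ γ ∈ Γ, d * γ ∉ D := by
        by_contra hno
        push Not at hno
        have hall : ∀ x, Gen Γ x → x ∈ D := by
          intro x hx
          induction hx with
          | @base a ha =>
            have := hno e heD a ha
            rwa [(hid a (hΓG ha)).1] at this
          | @snoc w a hw ha ihw => exact hno w ihw a ha
        exact hgD (hall g (hgen g hg))
      obtain ⟨d, hd, γ, hγ, hdγ⟩ := hex
      have hdγG : d * γ ∈ G := hmul _ (hDG hd) _ (hΓG hγ)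
      have hdγr : Reach (2 * i + M + c + 2) (X ∪ F) {d * γ} := by
        have h1 := (hDr d hd).mul' ((hΓ γ hγ).mono le_rfl (X' := X ∪ F)
          Set.subset_union_left subset_rfl)
        exact h1.mono (by omega) subset_rfl subset_rfl
      refine ⟨C ∪ C.image (fun x => x * (d * γ)), ?_, ?_, ?_, F ∪ {d * γ}, ?_, ?_⟩
      · intro x hx
        simp only [Finset.coe_union, Finset.coe_image, Set.mem_union, Finset.mem_coe,
          Set.mem_image] at hx
        rcases hx with hx | ⟨y, hy, rfl⟩
        · exact hCG hx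
        · exact hmul _ (hCG hy) _ hdγG
      · exact Finset.mem_union_left _ heC
      · rw [Finset.card_union_of_disjoint, Finset.card_image_of_injOn, hCcard, pow_succ]
        · ring
        · intro x hx y hy hxy
          simp only at hxy
          have h1 : x * (d * γ) * pw M (d * γ) = y * (d * γ) * pw M (d * γ) := by rw [hxy]
          rw [mul_assoc x, mul_assoc y, (hinv _ hdγG).2.2, (hid x (hCG hx)).2,
            (hid y (hCG hy)).2] at h1
          exact h1
        · rw [Finset.disjoint_left]
          intro y hy hy'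
          rw [Finset.mem_image] at hy'
          obtain ⟨x, hx, hxy⟩ := hy'
          apply hdγ
          refine ⟨x, hx, y, hy, ?_⟩
          rw [← hxy, ← mul_assoc (pw M x), (hinv x (hCG hx)).2.1, (hid _ hdγG).1]
      · refine (hF.trans hdγr).mono ?_ subset_rfl subset_rfl
        have : (i + 1) * (2 * ℓ + M + c + 2) = i * (2 * ℓ + M + c + 2) + (2 * ℓ + M + c + 2) := by
          ring
        omega
      · intro x hx
        rw [Finset.mem_union, Finset.mem_image] at hx
        rcases hx with hx | ⟨y, hy, rfl⟩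
        · refine (hCr x hx).mono (by omega) ?_ subset_rfl
          exact Set.union_subset_union_right _ Set.subset_union_left
        · have h1 : Reach i (X ∪ (F ∪ {d * γ})) {y} := (hCr y hy).mono le_rfl
            (Set.union_subset_union_right _ Set.subset_union_left) subset_rfl
          have h2 : Reach 0 (X ∪ (F ∪ {d * γ})) {d * γ} :=
            Reach.of_subset (by simp) _
          exact h1.mul' h2
  obtain ⟨C, -, -, hC, -⟩ := key (ℓ + 1) le_rfl
  have h1 : C.card ≤ Nat.card P := by
    rw [Nat.card_eq_fintype_card]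
    exact Finset.card_le_univ C
  omega

/-- Schreier-type generators of `e T e`. -/
theorem kernel_gen (h : HasInv M P) {A : Set P} {e : P} (he : Gen A e) (hee : e * e = e)
    (hA : ∀ a ∈ A, JLe e a) (l : P → P)
    (hl : ∀ y, Gen A y → (∀ a ∈ A, JLe y a) → Gen A (l y) ∧ LLe y (l y) ∧ JLe (l y) y)
    {w : P} (hw : Gen A w) :
    Gen ({g | ∃ a ∈ A, g = e * a * e} ∪ {g | ∃ y, Gen A y ∧ (∀ a ∈ A, JLe y a) ∧
      g = e * l y * e} ∪ {g | ∃ y a, Gen A y ∧ (∀ a ∈ A, JLe y a) ∧ a ∈ A ∧
      g = e * l y * a * e}) (e * w * e) := by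
  induction hw with
  | @base a ha => exact Gen.base (Or.inl (Or.inl ⟨a, ha, rfl⟩))
  | @snoc w a hw ha ih =>
    -- `y = e * w`
    have hy : Gen A (e * w) := he.mul hw
    have hyK : ∀ a ∈ A, JLe (e * w) a := fun c hc => (jle_mul_left h e w).trans (hA c hc)
    obtain ⟨hl1, hl2, hl3⟩ := hl _ hy hyK
    set L := l (e * w) with hL
    have hLK : ∀ a ∈ A, JLe L a := fun c hc => hl3.trans (hyK c hc)
    set g := e * L * e with hg
    -- `idem g = e`
    have heL : JLe e L := Gen.jle h hA hl1
    have hLe : JLe L e := Gen.jle h hLK he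
    have hLLe : LLe e g := by
      have h1 : JLe e (e * L) := jle_mul h (JLe.refl h e) heL
      have h2 : JLe e (e * L * e) := jle_mul h h1 (JLe.refl h e)
      exact lle_mul_of_jle h h2
    have heg : e * g = g := by rw [hg, ← mul_assoc, ← mul_assoc, hee]
    have hidem : idem M g = e := idem_eq_of_left h heg hLLe
    set g' := pw M g with hg'
    have hge' : g * g' = e := hidem
    have heg' : e * g' = g' := by
      have := idem_mul_pw h g
      rwa [hidem] at this
    have hg'e : g' * e = g' := by
      have := pw_mul_idem h g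
      rwa [hidem] at this
    -- `L * g' * L = L`
    have hLeL : LLe L (e * L) := lle_mul h hLe
    obtain ⟨s, hs⟩ := hLeL
    have h3 : e * L * g' * L = e * L := by
      calc e * L * g' * L = e * L * (e * g') * L := by rw [heg']
        _ = (e * L * e) * g' * L := by simp only [mul_assoc]
        _ = e * L := by rw [← hg, hge']
    have h4 : L * g' * L = L := by
      calc L * g' * L = s * (e * L) * g' * L := by rw [← hs]
        _ = s * (e * L * g' * L) := by simp only [mul_assoc]
        _ = L := by rw [h3, ← hs]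
    obtain ⟨t, ht⟩ := hl2
    have h5 : e * w * g' * L = e * w := by
      calc e * w * g' * L = t * L * g' * L := by rw [← ht]
        _ = t * (L * g' * L) := by simp only [mul_assoc]
        _ = e * w := by rw [h4, ← ht]
    have h6 : e * (w * a) * e = (e * w * e) * g' * (e * L * a * e) := by
      calc e * (w * a) * e = (e * w) * a * e := by simp only [mul_assoc]
        _ = (e * w * g' * L) * a * e := by rw [h5]
        _ = (e * w * (e * g' * e) * L) * a * e := by rw [heg', hg'e]
        _ = _ := by simp only [mul_assoc]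
    rw [h6]
    refine Gen.mul (Gen.mul ih (Gen.pw ?_ M)) (Gen.base ?_)
    · exact Gen.base (Or.inl (Or.inr ⟨e * w, hy, hyK, rfl⟩))
    · exact Or.inr ⟨e * w, a, hy, hyK, ha, rfl⟩

theorem Ext.gen {k : ℕ} {X Y : Set P} (h : Ext k X Y) : ∀ y ∈ Y, Gen X y := by
  induction h with
  | refl X => exact fun y hy => Gen.base hy
  | step _ hx hy ih =>
    intro z hz
    rcases hz with rfl | hz
    · exact (ih _ hx).mul (ih _ hy)
    · exact ih _ hz

theorem Reach.gen {k : ℕ} {X : Set P} {x : P} (h : Reach k X {x}) : Gen X x := by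
  obtain ⟨a, -, Y, hY, hx⟩ := h
  exact hY.gen x (hx rfl)

/-- the common first reduction: an `R`-representative of `b` -/
theorem exists_R_rep (h : HasInv M P) {D k : ℕ} {A : Finset P} (hAk : A.card ≤ k + 1)
    (IH : ∀ B : Finset P, B.card ≤ k → ∀ b, Gen (↑B : Set P) b → Reach D (↑B) {b})
    {b : P} (hb : Gen (↑A : Set P) b) :
    ∃ r, Gen (↑A : Set P) r ∧ RLe b r ∧ JLe r b ∧ Reach (D + 1) (↑A) {r} := by
  classical
  rcases Gen.prefix_lemma h (fun x => JLe x b) hb (JLe.refl h b) with
    ⟨a, ha, hab, hba⟩ | ⟨w, a, hw, ha, hn, hwa, hbr⟩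
  · exact ⟨a, Gen.base ha, hba, hab, Reach.of_subset (by simpa using ha) _⟩
  · refine ⟨w * a, Gen.snoc hw ha, hbr, hwa, ?_⟩
    have h1 : Gen (↑(A.filter (fun c => JLe w c)) : Set P) w := by
      have := hw.above h
      refine this.mono ?_
      rintro c ⟨hc, hwc⟩
      simpa using ⟨hc, hwc⟩
    have ha' : a ∉ A.filter (fun c => JLe w c) := by
      intro hmem
      rw [Finset.mem_filter] at hmem
      exact hn ((jle_mul h (JLe.refl h w) hmem.2).trans hwa)
    have hlt : (A.filter (fun c => JLe w c)).card < A.card := by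
      apply Finset.card_lt_card
      refine ⟨Finset.filter_subset _ _, fun hsub => ha' (hsub ha)⟩
    have h2 := IH _ (by omega) w h1
    have h3 : Reach D (↑A : Set P) {w} := h2.mono le_rfl (by
      intro x hx
      simp only [Finset.coe_filter, Set.mem_ofPred_eq] at hx
      exact hx.1) subset_rfl
    have h4 := h3.mul' (Reach.of_subset (X := (↑A : Set P)) (F := {a}) (by simpa using ha) 0)
    exact h4.mono (by omega) subset_rfl subset_rfl

/-- The main recursion step. -/
theorem reach_step [Finite P] (h : HasInv M P) {ℓ Λ k : ℕ} (hcard : Nat.card P < 2 ^ (ℓ + 1))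
    (hΛ : ∀ A : Finset P, A.card ≤ k → ∀ y, Gen (↑A : Set P) y →
      ∃ l, Gen (↑A : Set P) l ∧ LLe y l ∧ JLe l y ∧ Reach Λ (↑A) {l}) :
    ∀ j, j ≤ k → ∀ A : Finset P, A.card ≤ j → ∀ b, Gen (↑A : Set P) b →
      Reach (j * (Λ + M + 3 + (ℓ + 1) * (2 * ℓ + M + (Λ + 3) + 3))) (↑A) {b} := by
  classical
  intro j
  induction j with
  | zero =>
    intro _ A hA b hb
    exfalso
    have : A = ∅ := by simpa using hA
    subst this
    simp only [Finset.coe_empty] at hb
    induction hb with
    | base ha => exact ha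
    | snoc _ ha _ => exact ha
  | succ j ih =>
    intro hj A hA b hb
    set B := (ℓ + 1) * (2 * ℓ + M + (Λ + 3) + 3) with hB
    -- reduce to generators above `b`
    have red : ∀ A : Finset P, A.card ≤ j + 1 → Gen (↑A : Set P) b → (∀ a ∈ A, JLe b a) →
        Reach ((j + 1) * (Λ + M + 3 + B)) (↑A) {b} := by
      intro A hA hb hbA
      obtain ⟨r, hr, hbr, hrb, hrR⟩ := exists_R_rep h hA (ih (by omega)) hb
      obtain ⟨l, hl, hbl, hlb, hlR⟩ := hΛ A (by omega) b hb
      have hbrJ : JLe b r := RLe.jle h hbr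
      have hblJ : JLe b l := LLe.jle h hbl
      set e := idem M (r * l) with he
      have hrl : RLe r (r * l) := rle_mul h (hrb.trans hblJ)
      have hlr : LLe l (r * l) := lle_mul h (hlb.trans hbrJ)
      have heb : e * b = b := by
        obtain ⟨t, ht⟩ := hbr.trans hrl
        rw [ht, ← mul_assoc, he, idem_mul h]
      have hbe : b * e = b := by
        obtain ⟨t, ht⟩ := hbl.trans hlr
        rw [ht, mul_assoc, he, mul_idem h]
      have hee : e * e = e := idem_idem h _
      have heGen : Gen (↑A : Set P) e := (hr.mul hl).mul (Gen.pw (hr.mul hl) M)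
      have heA : ∀ a ∈ (↑A : Set P), JLe e a := by
        intro a ha
        have h1 : JLe e (r * l) := jle_mul_left h _ _
        exact ((h1.trans (jle_mul_left h r l)).trans hrb).trans (hbA a ha)
      -- reach `e`
      have hrlR : Reach (j * (Λ + M + 3 + B) + 1 + Λ + 1) (↑A : Set P) {r * l} := hrR.mul' hlR
      have heR : Reach (j * (Λ + M + 3 + B) + 1 + Λ + 1 + (M + 1)) (↑A : Set P) {e} := by
        have h1 := hrlR.trans (((Reach.pw (X := (↑A : Set P) ∪ {r * l}) (x := r * l)
          (by simp) M)).mono le_rfl subset_rfl subset_rfl)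
        have h2 := h1.trans (Reach.mul (X := (↑A : Set P) ∪ ({r * l} ∪ {pw M (r * l)}))
          (x := r * l) (y := pw M (r * l)) (by simp) (by simp))
        refine h2.mono (by omega) subset_rfl ?_
        rw [he]; unfold idem; simp
      -- L-representatives
      have hlex : ∀ y, ∃ l, Gen (↑A : Set P) y → Gen (↑A : Set P) l ∧ LLe y l ∧ JLe l y ∧
          Reach Λ (↑A) {l} := by
        intro y
        by_cases hy : Gen (↑A : Set P) y
        · obtain ⟨l, hl⟩ := hΛ A (by omega) y hy
          exact ⟨l, fun _ => hl⟩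
        · exact ⟨y, fun h => absurd h hy⟩
      choose lf hlf using hlex
      set Γ : Set P := ({g | ∃ a ∈ (↑A : Set P), g = e * a * e} ∪
        {g | ∃ y, Gen (↑A : Set P) y ∧ (∀ a ∈ (↑A : Set P), JLe y a) ∧
        g = e * lf y * e} ∪ {g | ∃ y a, Gen (↑A : Set P) y ∧ (∀ a ∈ (↑A : Set P), JLe y a) ∧
          a ∈ (↑A : Set P) ∧ g = e * lf y * a * e}) with hΓ
      set G : Set P := {g | ∃ w, Gen (↑A : Set P) w ∧ g = e * w * e} with hG
      have hGe : ∀ g ∈ G, e * g = g ∧ g * e = g := by
        rintro g ⟨w, hw, rfl⟩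
        constructor
        · rw [← mul_assoc, ← mul_assoc, hee]
        · rw [mul_assoc, hee]
      have hGinv : ∀ g ∈ G, idem M g = e := by
        intro g hg
        apply idem_eq_of_left h (hGe g hg).1
        obtain ⟨w, hw, rfl⟩ := hg
        have h1 : JLe e (e * w) := jle_mul h (JLe.refl h e) (Gen.jle h heA hw)
        have h2 : JLe e (e * w * e) := jle_mul h h1 (JLe.refl h e)
        exact lle_mul_of_jle h h2
      have hGGen : ∀ g ∈ G, Gen (↑A : Set P) g := by
        rintro g ⟨w, hw, rfl⟩
        exact (heGen.mul hw).mul heGen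
      have hΓG : Γ ⊆ G := by
        rintro g ((⟨a, ha, rfl⟩ | ⟨y, hy, hyK, rfl⟩) | ⟨y, a, hy, hyK, ha, rfl⟩)
        · exact ⟨a, Gen.base ha, rfl⟩
        · exact ⟨lf y, (hlf y hy).1, rfl⟩
        · exact ⟨lf y * a, (hlf y hy).1.snoc ha, by rw [mul_assoc e]⟩
      have hfin := group_reach (M := M) (e := e) (G := G) (Γ := Γ) (X := (↑A : Set P) ∪ {e})
        (c := Λ + 3) (ℓ := ℓ)
        ⟨e, heGen, by rw [hee, hee]⟩
        (by
          rintro x ⟨w, hw, rfl⟩ y ⟨w', hw', rfl⟩
          refine ⟨w * e * (e * w'), (hw.mul heGen).mul (heGen.mul hw'), ?_⟩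
          simp only [mul_assoc])
        hGe
        (by
          intro g hg
          have h1 := hGinv g hg
          have h2 : g * pw M g = e := h1
          refine ⟨?_, ?_, h2⟩
          · refine ⟨pw M g, Gen.pw (hGGen g hg) M, ?_⟩
            have h3 := idem_mul_pw h g
            have h4 := pw_mul_idem h g
            rw [h1] at h3 h4
            rw [h3, h4]
          · rw [pw_comm]; exact h2)
        hΓG
        (by
          rintro g ⟨w, hw, rfl⟩
          exact kernel_gen h heGen hee heA lf
            (fun y hy _ => ⟨(hlf y hy).1, (hlf y hy).2.1, (hlf y hy).2.2.1⟩) hw)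
        (by simp)
        (by
          have he0 : Reach 0 ((↑A : Set P) ∪ {e}) {e} := Reach.of_subset (by simp) _
          rintro γ ((⟨a, ha, rfl⟩ | ⟨y, hy, hyK, rfl⟩) | ⟨y, a, hy, hyK, ha, rfl⟩)
          · have ha0 : Reach 0 ((↑A : Set P) ∪ {e}) {a} := by
              apply Reach.of_subset
              rw [Set.singleton_subset_iff]
              exact Or.inl ha
            exact ((he0.mul' ha0).mul' he0).mono (by omega) subset_rfl subset_rfl
          · have hl0 : Reach Λ ((↑A : Set P) ∪ {e}) {lf y} :=
              (hlf y hy).2.2.2.mono le_rfl Set.subset_union_left subset_rfl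
            exact ((he0.mul' hl0).mul' he0).mono (by omega) subset_rfl subset_rfl
          · have ha0 : Reach 0 ((↑A : Set P) ∪ {e}) {a} := by
              apply Reach.of_subset
              rw [Set.singleton_subset_iff]
              exact Or.inl ha
            have hl0 : Reach Λ ((↑A : Set P) ∪ {e}) {lf y} :=
              (hlf y hy).2.2.2.mono le_rfl Set.subset_union_left subset_rfl
            exact (((he0.mul' hl0).mul' ha0).mul' he0).mono (by omega) subset_rfl subset_rfl)
        hcard
        b ⟨b, hb, by rw [heb, hbe]⟩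
      have htot := heR.trans hfin
      refine htot.mono ?_ subset_rfl (by simp)
      have : (j + 1) * (Λ + M + 3 + B) = j * (Λ + M + 3 + B) + (Λ + M + 3 + B) := by ring
      rw [← hB]
      omega
    have hsub : (↑(A.filter (fun c => JLe b c)) : Set P) ⊆ ↑A := by
      intro x hx
      simp only [Finset.coe_filter, Set.mem_ofPred_eq] at hx
      exact hx.1
    have h1 : Gen (↑(A.filter (fun c => JLe b c)) : Set P) b := by
      have := hb.above h
      refine this.mono ?_
      rintro c ⟨hc, hwc⟩
      simpa using ⟨hc, hwc⟩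
    refine (red _ ((Finset.card_filter_le _ _).trans hA) h1 ?_).mono le_rfl hsub subset_rfl
    intro a ha
    exact (Finset.mem_filter.1 ha).2

end

end Pool.Agent.SMP
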