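import Pool.Agent.SMP.Machine

/-!
# Completeness of the verifier for straight-line programs
-/

set_option backward.isDefEq.respectTransparency false
set_option linter.unusedSectionVars false

namespace Pool.Agent.SMP

open RTM

variable {S : Type} [Semigroup S]

/-- reading the instance -/
theorem read_B (b : List S) : ∀ B : List (Option S),
    (slpMach S).runFrom (cf .rdB [] [] [] [] B) ((b.map some).map Sum.inl) =
      cf .rdB [] [] [] [] ((b.map some).reverse ++ B) := by
  induction b with
  | nil => intro B; rfl
  | cons s b ih =>
    intro B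
    rw [List.map_cons, List.map_cons, Mach.runFrom_cons]
    have : (slpMach S).step (cf .rdB [] [] [] [] B) (Sum.inl (some s)) =
        cf .rdB [] [] [] [] (some s :: B) := eq_cf _
    rw [this, ih]
    congr 1
    simp

theorem read_A (w : List (Option S)) : ∀ P B : List (Option S),
    (slpMach S).runFrom (cf .pos1 P [] [] [] B) (w.map Sum.inl) =
      cf .pos1 (w.reverse ++ P) [] [] [] B := by
  induction w with
  | nil => intro P B; rfl
  | cons s b ih =>
    intro P B
    rw [List.map_cons, Mach.runFrom_cons]
    have : (slpMach S).step (cf .pos1 P [] [] [] B) (Sum.inl s) =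
        cf .pos1 (s :: P) [] [] [] B := eq_cf _
    rw [this, ih]
    congr 1
    simp

theorem read_inst (b : List S) (A : List (List S)) :
    (slpMach S).runFrom (slpMach S).init ((bl b ++ st A).map Sum.inl) =
      cf .pos1 (none :: st A).reverse [] [] [] (b.map some).reverse := by
  have h0 : (slpMach S).init = cf .rdB [] [] [] [] [] := eq_cf _
  rw [h0, bl, List.append_assoc, List.map_append, Mach.runFrom_append, read_B]
  rw [List.singleton_append, List.map_cons, Mach.runFrom_cons]
  have : (slpMach S).step (cf .rdB [] [] [] [] ((b.map some).reverse ++ [])) (Sum.inl none) =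
        cf .pos1 [none] [] [] [] ((b.map some).reverse) := by
    rw [List.append_nil]
    exact eq_cf _
  rw [this, read_A]
  congr 1
  simp

/-- reachability by certificate words of bounded length -/
def Go (n : ℕ) (c c' : (slpMach S).Conf) : Prop :=
  ∃ w : List (Bool × Bool), w.length ≤ n ∧ (slpMach S).runFrom c (w.map Sum.inr) = c'

theorem Go.refl (c : (slpMach S).Conf) : Go 0 c c := ⟨[], le_rfl, rfl⟩

theorem Go.trans {m n : ℕ} {c c' c'' : (slpMach S).Conf} (h : Go m c c') (h' : Go n c' c'') :
    Go (m + n) c c'' := by
  obtain ⟨w, hw, h⟩ := h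
  obtain ⟨w', hw', h'⟩ := h'
  refine ⟨w ++ w', by rw [List.length_append]; omega, ?_⟩
  rw [List.map_append, Mach.runFrom_append, h, h']

theorem Go.mono {m n : ℕ} {c c' : (slpMach S).Conf} (h : Go m c c') (hmn : m ≤ n) :
    Go n c c' := by
  obtain ⟨w, hw, h⟩ := h
  exact ⟨w, hw.trans hmn, h⟩

theorem Go.one {c c' : (slpMach S).Conf} (i : Bool × Bool)
    (h : (slpMach S).step c (Sum.inr i) = c') : Go 1 c c' :=
  ⟨[i], le_rfl, h⟩

theorem go_left {m : Mode} (hm : m = .pos1 ∨ m = .pos2) (v : List (Option S)) :
    ∀ P Q W V B, Go v.length (cf m (v ++ P) Q W V B) (cf m P (v.reverse ++ Q) W V B) := by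
  induction v with
  | nil => intro P Q W V B; exact Go.refl _
  | cons x v ih =>
    intro P Q W V B
    have h1 : Go 1 (cf m (x :: (v ++ P)) Q W V B) (cf m (v ++ P) (x :: Q) W V B) := by
      apply Go.one (false, false)
      rcases hm with rfl | rfl <;> exact eq_cf _
    have h2 := h1.trans (ih P (x :: Q) W V B)
    have e : (x :: v).reverse ++ Q = v.reverse ++ x :: Q := by simp
    rw [e, List.length_cons, List.cons_append, Nat.add_comm]
    exact h2

theorem go_right {m : Mode} (hm : m = .pos1 ∨ m = .pos2 ∨ m = .ret) (v : List (Option S)) :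
    ∀ P Q W V B, Go v.length (cf m P (v ++ Q) W V B) (cf m (v.reverse ++ P) Q W V B) := by
  induction v with
  | nil => intro P Q W V B; exact Go.refl _
  | cons x v ih =>
    intro P Q W V B
    have h1 : Go 1 (cf m P (x :: (v ++ Q)) W V B) (cf m (x :: P) (v ++ Q) W V B) := by
      apply Go.one (false, true)
      rcases hm with rfl | rfl | rfl <;> exact eq_cf _
    have h2 := h1.trans (ih (x :: P) Q W V B)
    have e : (x :: v).reverse ++ P = v.reverse ++ x :: P := by simp
    rw [e, List.length_cons, List.cons_append, Nat.add_comm]
    exact h2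

theorem go_copy (v : List S) :
    ∀ P Q W V B, Go v.length (cf .copy P (v.map some ++ Q) W V B)
      (cf .copy ((v.map some).reverse ++ P) Q ((v.map some).reverse ++ W) V B) := by
  induction v with
  | nil => intro P Q W V B; exact Go.refl _
  | cons x v ih =>
    intro P Q W V B
    have h1 : Go 1 (cf .copy P (some x :: (v.map some ++ Q)) W V B)
        (cf .copy (some x :: P) (v.map some ++ Q) (some x :: W) V B) := by
      apply Go.one (false, true)
      exact eq_cf _
    have h2 := h1.trans (ih (some x :: P) Q (some x :: W) V B)
    have e : ∀ P, ((x :: v).map some).reverse ++ P = (v.map some).reverse ++ some x :: P := by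
      simp
    rw [e, e, List.length_cons, List.map_cons, List.cons_append, Nat.add_comm]
    exact h2

theorem go_mul : ∀ (xr yr : List S), xr.length = yr.length →
    ∀ P Q W V B, Go yr.length (cf .mul (yr.map some ++ P) Q (xr.map some ++ W) V B)
      (cf .mul P ((yr.map some).reverse ++ Q) W
        ((List.zipWith (· * ·) xr yr).reverse.map some ++ V) B)
  | [], [], _, P, Q, W, V, B => Go.refl _
  | x :: xr, y :: yr, h, P, Q, W, V, B => by
    have h1 : Go 1 (cf .mul (some y :: (yr.map some ++ P)) Q (some x :: (xr.map some ++ W)) V B)
        (cf .mul (yr.map some ++ P) (some y :: Q) (xr.map some ++ W) (some (x * y) :: V) B) := by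
      apply Go.one (false, true)
      exact eq_cf _
    have hlen : xr.length = yr.length := by simpa using h
    have h2 := h1.trans (go_mul xr yr hlen P (some y :: Q) W (some (x * y) :: V) B)
    have e : ((y :: yr).map some).reverse ++ Q = (yr.map some).reverse ++ some y :: Q := by
      simp
    have e2 : (List.zipWith (· * ·) (x :: xr) (y :: yr)).reverse.map some ++ V =
        (List.zipWith (· * ·) xr yr).reverse.map some ++ some (x * y) :: V := by
      simp
    rw [e, e2, List.length_cons, List.map_cons, List.map_cons, List.cons_append,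
      List.cons_append, Nat.add_comm]
    exact h2

theorem go_app (v : List (Option S)) :
    ∀ P Q W V B, Go v.length (cf .app P Q W (v ++ V) B) (cf .app (v.reverse ++ P) Q W V B) := by
  induction v with
  | nil => intro P Q W V B; exact Go.refl _
  | cons x v ih =>
    intro P Q W V B
    have h1 : Go 1 (cf .app P Q W (x :: (v ++ V)) B) (cf .app (x :: P) Q W (v ++ V) B) := by
      apply Go.one (false, true)
      exact eq_cf _
    have h2 := h1.trans (ih (x :: P) Q W V B)
    have e : (x :: v).reverse ++ P = v.reverse ++ x :: P := by simp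
    rw [e, List.length_cons, List.cons_append, Nat.add_comm]
    exact h2

theorem go_cmp (v : List (Option S)) :
    ∀ P Q W V B, Go v.length (cf .cmp P Q (v ++ W) V (v ++ B)) (cf .cmp P Q W V B) := by
  induction v with
  | nil => intro P Q W V B; exact Go.refl _
  | cons x v ih =>
    intro P Q W V B
    have h1 : Go 1 (cf .cmp P Q (x :: (v ++ W)) V (x :: (v ++ B)))
        (cf .cmp P Q (v ++ W) V (v ++ B)) := by
      apply Go.one (false, true)
      refine (eq_cf _).trans ?_
      simp [Mach.step, slpMach, tr, cf, ac]
    have h2 := h1.trans (ih P Q W V B)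
    rw [List.length_cons, List.cons_append, List.cons_append, Nat.add_comm]
    exact h2

/-- load a block of the store into `W` -/
theorem go_load {X : List (List S)} {x : List S} (hx : x ∈ X) (B : List (Option S)) :
    ∃ P Q, P.reverse ++ Q = none :: st X ∧
      Go (2 * (st X).length + 3) (cf .pos1 (none :: st X).reverse [] [] [] B)
        (cf .pos2 P Q (x.map some).reverse [] B) := by
  obtain ⟨X₁, X₂, rfl⟩ := List.append_of_mem hx
  have e : (none :: st (X₁ ++ x :: X₂)).reverse =
      (x.map some ++ none :: st X₂).reverse ++ (none :: st X₁).reverse := by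
    rw [st_append, st_cons]; simp
  have h1 := go_left (m := .pos1) (Or.inl rfl) (x.map some ++ none :: st X₂).reverse
    (none :: st X₁).reverse [] [] [] B
  rw [← e, List.reverse_reverse, List.append_nil] at h1
  have h2 : Go 1 (cf .pos1 (none :: st X₁).reverse (x.map some ++ none :: st X₂) [] [] B)
      (cf .copy (none :: st X₁).reverse (x.map some ++ none :: st X₂) [] [] B) := by
    apply Go.one (true, false)
    have hP : ∃ P', (none :: st X₁).reverse = none :: P' := by
      rcases List.eq_nil_or_concat X₁ with rfl | ⟨Y, y, rfl⟩
      · exact ⟨[], rfl⟩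
      · refine ⟨(none :: (st Y ++ y.map some)).reverse, ?_⟩
        rw [List.concat_eq_append, st_snoc]
        simp
    obtain ⟨P', hP'⟩ := hP
    rw [hP']
    exact eq_cf _
  have h3 := go_copy x (none :: st X₁).reverse (none :: st X₂) [] [] B
  have h4 : Go 1 (cf .copy ((x.map some).reverse ++ (none :: st X₁).reverse) (none :: st X₂)
      ((x.map some).reverse ++ []) [] B)
      (cf .pos2 ((x.map some).reverse ++ (none :: st X₁).reverse) (none :: st X₂)
      ((x.map some).reverse) [] B) := by
    apply Go.one (true, false)
    rw [List.append_nil]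
    exact eq_cf _
  refine ⟨(x.map some).reverse ++ (none :: st X₁).reverse, none :: st X₂, ?_, ?_⟩
  · rw [st_append, st_cons]; simp
  · refine (((h1.trans h2).trans h3).trans h4).mono ?_
    rw [st_append, st_cons]
    simp only [List.length_reverse, List.length_append, List.length_map, List.length_cons]
    omega

/-- append the product of two blocks to the store -/
theorem go_product {X : List (List S)} {x y : List S} (hx : x ∈ X) (hy : y ∈ X)
    (hlen : x.length = y.length) (B : List (Option S)) :
    Go (7 * (st X).length + 20) (cf .pos1 (none :: st X).reverse [] [] [] B)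
      (cf .pos1 (none :: st (X ++ [List.zipWith (· * ·) x y])).reverse [] [] [] B) := by
  obtain ⟨P, Q, hPQ, h1⟩ := go_load hx B
  -- go to the right end
  have h2 := go_right (m := .pos2) (Or.inr (Or.inl rfl)) Q P [] (x.map some).reverse [] B
  have e1 : Q.reverse ++ P = (none :: st X).reverse := by
    rw [← hPQ]; simp
  rw [e1, List.append_nil] at h2
  have hQlen : Q.length ≤ (st X).length + 1 := by
    have := congrArg List.length hPQ
    simp only [List.length_append, List.length_reverse, List.length_cons] at this
    omega
  obtain ⟨X₁, X₂, rfl⟩ := List.append_of_mem hy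
  have e2 : (none :: st (X₁ ++ y :: X₂)).reverse =
      (none :: st X₂).reverse ++ (none :: (st X₁ ++ y.map some)).reverse := by
    rw [st_append, st_cons]; simp
  have h3 := go_left (m := .pos2) (Or.inr rfl) (none :: st X₂).reverse
    (none :: (st X₁ ++ y.map some)).reverse [] (x.map some).reverse [] B
  rw [← e2, List.reverse_reverse, List.append_nil] at h3
  have h4 : Go 1 (cf .pos2 (none :: (st X₁ ++ y.map some)).reverse (none :: st X₂)
      (x.map some).reverse [] B)
      (cf .mul (none :: (st X₁ ++ y.map some)).reverse (none :: st X₂)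
      (x.map some).reverse [] B) := by
    apply Go.one (true, false)
    exact eq_cf _
  have h5 := go_mul x.reverse y.reverse (by simpa using hlen) (none :: st X₁).reverse
    (none :: st X₂) [] [] B
  have e3 : (y.reverse.map some) ++ (none :: st X₁).reverse =
      (none :: (st X₁ ++ y.map some)).reverse := by simp
  have e4 : (x.reverse.map some) ++ [] = (x.map some).reverse := by simp
  have e5 : (List.zipWith (· * ·) x.reverse y.reverse).reverse.map some ++ [] =
      (List.zipWith (· * ·) x y).map some := by
    rw [List.append_nil, ← List.reverse_zipWith hlen, List.reverse_reverse]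
  have e6 : ((y.reverse.map some).reverse ++ none :: st X₂) = y.map some ++ none :: st X₂ := by
    simp
  rw [e3, e4, e5, e6] at h5
  have h6 : Go 1 (cf .mul (none :: st X₁).reverse (y.map some ++ none :: st X₂) []
      ((List.zipWith (· * ·) x y).map some) B)
      (cf .ret (none :: st X₁).reverse (y.map some ++ none :: st X₂) []
      ((List.zipWith (· * ·) x y).map some) B) := by
    apply Go.one (true, false)
    have hP : ∃ P', (none :: st X₁).reverse = none :: P' := by
      rcases List.eq_nil_or_concat X₁ with rfl | ⟨Y, y, rfl⟩
      · exact ⟨[], rfl⟩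
      · refine ⟨(none :: (st Y ++ y.map some)).reverse, ?_⟩
        rw [List.concat_eq_append, st_snoc]
        simp
    obtain ⟨P', hP'⟩ := hP
    rw [hP']
    exact eq_cf _
  have h7 := go_right (m := .ret) (Or.inr (Or.inr rfl)) (y.map some ++ none :: st X₂)
    (none :: st X₁).reverse [] [] ((List.zipWith (· * ·) x y).map some) B
  have e7 : (y.map some ++ none :: st X₂).reverse ++ (none :: st X₁).reverse =
      (none :: st (X₁ ++ y :: X₂)).reverse := by
    rw [st_append, st_cons]; simp
  rw [e7, List.append_nil] at h7
  have h8 : Go 1 (cf .ret (none :: st (X₁ ++ y :: X₂)).reverse [] []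
      ((List.zipWith (· * ·) x y).map some) B)
      (cf .app (none :: st (X₁ ++ y :: X₂)).reverse [] []
      ((List.zipWith (· * ·) x y).map some) B) := by
    apply Go.one (true, false)
    exact eq_cf _
  have h9 := go_app ((List.zipWith (· * ·) x y).map some) (none :: st (X₁ ++ y :: X₂)).reverse
    [] [] [] B
  rw [List.append_nil] at h9
  have h10 : Go 1 (cf .app (((List.zipWith (· * ·) x y).map some).reverse ++
      (none :: st (X₁ ++ y :: X₂)).reverse) [] [] [] B)
      (cf .pos1 (none :: st ((X₁ ++ y :: X₂) ++ [List.zipWith (· * ·) x y])).reverse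
        [] [] [] B) := by
    apply Go.one (true, false)
    refine (eq_cf _).trans ?_
    congr 1
    rw [st_snoc]
    simp [Mach.step, slpMach, tr, cf, ac]
  have hall := ((((((((h1.trans h2).trans h3).trans h4).trans h5).trans h6).trans h7).trans
    h8).trans h9).trans h10
  refine hall.mono ?_
  have hst : (st (X₁ ++ y :: X₂)).length = (st X₁).length + (y.length + ((st X₂).length + 1)) := by
    rw [st_append, st_cons]
    simp
  rw [hst] at hQlen ⊢
  simp only [List.length_reverse, List.length_append, List.length_map, List.length_cons,
    List.length_zipWith]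
  omega

/-- final comparison -/
theorem go_accept {X : List (List S)} {b : List S} (hb : b ∈ X) :
    ∃ P Q, Go (3 * (st X).length + 5)
      (cf .pos1 (none :: st X).reverse [] [] [] (b.map some).reverse) (cf .acc P Q [] [] []) := by
  obtain ⟨P, Q, hPQ, h1⟩ := go_load hb (b.map some).reverse
  have h2 : Go 1 (cf .pos2 P Q (b.map some).reverse [] (b.map some).reverse)
      (cf .cmp P Q (b.map some).reverse [] (b.map some).reverse) := by
    apply Go.one (true, true)
    exact eq_cf _
  have h3 := go_cmp (b.map some).reverse P Q [] [] []
  simp only [List.append_nil] at h3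
  have h4 : Go 1 (cf .cmp P Q [] [] []) (cf .acc P Q [] [] []) := by
    apply Go.one (true, true)
    exact (eq_cf (S := S) _)
  refine ⟨P, Q, (((h1.trans h2).trans h3).trans h4).mono ?_⟩
  obtain ⟨X₁, X₂, rfl⟩ := List.append_of_mem hb
  rw [st_append, st_cons]
  simp only [List.length_reverse, List.length_append, List.length_map, List.length_cons]
  omega

theorem length_st {X : List (List S)} {n : ℕ} (h : ∀ x ∈ X, x.length = n) :
    (st X).length = X.length * (n + 1) := by
  induction X with
  | nil => simp
  | cons x X ih =>
    rw [st_cons]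
    simp only [List.length_append, List.length_map, List.length_cons]
    rw [ih (fun y hy => h y (List.mem_cons_of_mem _ hy)), h x List.mem_cons_self]
    ring

theorem ofFn_mul' {n : ℕ} (x y : Fin n → S) :
    List.ofFn (x * y) = List.zipWith (· * ·) (List.ofFn x) (List.ofFn y) := by
  apply List.ext_getElem
  · simp
  · intro i h1 h2
    simp

/-- executing a straight-line program -/
theorem go_slp {n k m : ℕ} {A Y : Set (Fin n → S)} (h : Ext m A Y) (X₀ : List (List S))
    (hX₀ : X₀.length = k) (hlen : ∀ x ∈ X₀, x.length = n) (hA : ∀ a ∈ A, List.ofFn a ∈ X₀)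
    (B : List (Option S)) :
    ∃ X : List (List S), X.length = k + m ∧ (∀ x ∈ X, x.length = n) ∧
      (∀ y ∈ Y, List.ofFn y ∈ X) ∧
      Go (m * (7 * ((k + m) * (n + 1)) + 20)) (cf .pos1 (none :: st X₀).reverse [] [] [] B)
        (cf .pos1 (none :: st X).reverse [] [] [] B) := by
  induction h with
  | refl A =>
    exact ⟨X₀, by simpa using hX₀, hlen, hA, (Go.refl _).mono (by simp)⟩
  | @step m A Y x y h hx hy ih =>
    obtain ⟨X, hXk, hXn, hXY, hgo⟩ := ih hA
    have h1 := go_product (hXY x hx) (hXY y hy) (by simp) B
    refine ⟨X ++ [List.zipWith (· * ·) (List.ofFn x) (List.ofFn y)], ?_, ?_, ?_, ?_⟩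
    · simp [hXk]; omega
    · intro z hz
      rw [List.mem_append, List.mem_singleton] at hz
      rcases hz with hz | rfl
      · exact hXn z hz
      · simp
    · intro z hz
      rcases hz with rfl | hz
      · rw [ofFn_mul']
        simp
      · exact List.mem_append_left _ (hXY z hz)
    · refine (hgo.trans h1).mono ?_
      rw [length_st hXn, hXk]
      have h2 : (k + m) * (n + 1) ≤ (k + (m + 1)) * (n + 1) := Nat.mul_le_mul_right _ (by omega)
      have h3 : m * (7 * ((k + m) * (n + 1)) + 20) ≤ m * (7 * ((k + (m + 1)) * (n + 1)) + 20) :=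
        Nat.mul_le_mul_left _ (by omega)
      have h4 : (m + 1) * (7 * ((k + (m + 1)) * (n + 1)) + 20) =
        m * (7 * ((k + (m + 1)) * (n + 1)) + 20) + (7 * ((k + (m + 1)) * (n + 1)) + 20) := by ring
      omega

end Pool.Agent.SMP
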